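import Pool.Agent.K4H13.HW.Per
import Pool.Agent.Y18.BSD.Bv

/-!
# Project HW: the central modular symbols of a form of even weight and their Hecke relations
-/

set_option autoImplicit false

open Complex Filter Topology Set Polynomial MatrixGroups CongruenceSubgroup

namespace Pool.Agent.K4H13.HW

open Pool.Agent.K4H15.GM

/-- the primitive of `f(z) (z - r) ^ (m - 1)` -/
noncomputable def G0 (s : ℕ → ℂ) (m : ℕ) (r : ℚ) (z : ℂ) : ℂ :=
  Gp s (2 * m - 1) (PC ((X - C r) ^ (m - 1))) z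

/-- the central symbol -/
noncomputable def sy (s : ℕ → ℂ) (N m : ℕ) (r : ℚ) : ℂ :=
  open Classical in
  if r.den.Coprime N then limUnder (𝓝[>] (0 : ℝ))
    (fun y : ℝ => G0 s m r ((r : ℂ) + (y : ℂ) * Complex.I)) else 0

lemma PC_lin (r : ℚ) (j : ℕ) (z : ℂ) : (PC ((X - C r) ^ j)).eval z = (z - (r : ℂ)) ^ j := by
  unfold PC
  simp only [Polynomial.map_pow, Polynomial.map_sub, Polynomial.map_X, Polynomial.map_C, eval_pow,
    eval_sub, eval_X, eval_C]
  rfl

lemma lin_deg' (r : ℚ) {m : ℕ} (hm : 1 ≤ m) : (PC ((X - C r) ^ (m - 1))).natDegree < 2 * m - 1 := by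
  rw [PC_natDegree]
  have h : ((X - C r : ℚ[X]) ^ (m - 1)).natDegree ≤ m - 1 := by
    refine (natDegree_pow_le).trans ?_
    rw [natDegree_X_sub_C, mul_one]
  omega

lemma G0_deriv {s : ℕ → ℂ} (h : Gr s) {m : ℕ} (hm : 1 ≤ m) (r : ℚ) {z : ℂ} (hz : 0 < z.im) :
    HasDerivAt (G0 s m r) (-(ser s z * (z - r) ^ (m - 1))) z := by
  have h1 := Gp_deriv h (lin_deg' r hm) hz
  rw [PC_lin] at h1
  exact h1

lemma G0_line {s : ℕ → ℂ} (h : Gr s) (m : ℕ) (r : ℚ) (x : ℝ) :
    Tendsto (fun T : ℝ => G0 s m r ((x : ℂ) + (T : ℂ) * Complex.I)) atTop (𝓝 0) :=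
  Gp_line h _ _ x

lemma prim_unique {F G D : ℂ → ℂ} (hF : ∀ z : ℂ, 0 < z.im → HasDerivAt F (D z) z)
    (hG : ∀ z : ℂ, 0 < z.im → HasDerivAt G (D z) z) {x : ℝ}
    (h1 : Tendsto (fun T : ℝ => F ((x : ℂ) + (T : ℂ) * Complex.I)) atTop (𝓝 0))
    (h2 : Tendsto (fun T : ℝ => G ((x : ℂ) + (T : ℂ) * Complex.I)) atTop (𝓝 0)) {z : ℂ}
    (hz : 0 < z.im) : F z = G z := by
  have hopen : IsOpen {z : ℂ | 0 < z.im} := isOpen_lt continuous_const Complex.continuous_im
  have hder : ∀ w : ℂ, 0 < w.im → HasDerivAt (fun w => F w - G w) 0 w := fun w hw => by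
    have := (hF w hw).sub (hG w hw)
    rwa [sub_self] at this
  have hconst : ∀ w : ℂ, 0 < w.im → F w - G w = F z - G z := fun w hw =>
    hopen.is_const_of_deriv_eq_zero (convex_halfSpace_im_gt 0).isPreconnected
      (fun w hw => (hder w hw).differentiableAt.differentiableWithinAt)
      (fun w hw => (hder w hw).deriv) hw hz
  have h3 := h1.sub h2
  rw [sub_zero] at h3
  have h4 : Tendsto (fun T : ℝ => F z - G z) atTop (𝓝 0) := by
    refine h3.congr' ?_
    filter_upwards [eventually_gt_atTop (0 : ℝ)] with T hT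
    exact hconst _ (by simpa using hT)
  have h5 := tendsto_nhds_unique h4 tendsto_const_nhds
  exact sub_eq_zero.1 h5.symm

lemma ser_add_one (s : ℕ → ℂ) (z : ℂ) : ser s (z + 1) = ser s z := by
  unfold ser
  refine tsum_congr fun n => ?_
  congr 1
  have : 2 * (Real.pi : ℂ) * Complex.I * n * (z + 1) =
      2 * Real.pi * Complex.I * n * z + n * (2 * Real.pi * Complex.I) := by ring
  rw [this, Complex.exp_add, Complex.exp_nat_mul_two_pi_mul_I, mul_one]

lemma G0_add_one {s : ℕ → ℂ} (h : Gr s) {m : ℕ} (hm : 1 ≤ m) (r : ℚ) {z : ℂ} (hz : 0 < z.im) :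
    G0 s m (r + 1) (z + 1) = G0 s m r z := by
  refine prim_unique (F := fun z => G0 s m (r + 1) (z + 1)) (G := G0 s m r)
    (D := fun z => -(ser s z * (z - r) ^ (m - 1))) (x := 0) (fun w hw => ?_)
    (fun w hw => G0_deriv h hm r hw) ?_ (G0_line h m r 0) hz
  · have h1 := G0_deriv h hm (r + 1) (z := w + 1) (by simpa using hw)
    have h2 : HasDerivAt (fun w : ℂ => w + 1) 1 w := (hasDerivAt_id w).add_const 1
    refine (HasDerivAt.comp (h₂ := G0 s m (r + 1)) w h1 h2).congr_deriv ?_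
    rw [ser_add_one]
    push_cast
    ring
  · refine (G0_line h m (r + 1) 1).congr fun T => ?_
    congr 1
    push_cast
    ring

/-- the Hecke relations -/
structure HR (N m : ℕ) (s : ℕ → ℂ) : Prop where
  one : s 1 = 1
  mul : ∀ a b : ℕ, Nat.Coprime a b → s (a * b) = s a * s b
  pow : ∀ p j : ℕ, p.Prime → s (p ^ (j + 2)) = s p * s (p ^ (j + 1)) -
      (if p ∣ N then 0 else (p : ℂ) ^ (2 * m - 1) * s (p ^ j))

lemma HR.coeff {N m : ℕ} {s : ℕ → ℂ} (hf : HR N m s) {p : ℕ}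
    (hp : p.Prime) (hpN : ¬ p ∣ N) (n : ℕ) (hn : n ≠ 0) :
    s (p * n) + (if p ∣ n then (p : ℂ) ^ (2 * m - 1) * s (n / p) else 0) = s p * s n := by
  obtain ⟨k, m', hm', rfl⟩ := Nat.exists_eq_pow_mul_and_not_dvd hn p hp.ne_one
  have hco : Nat.Coprime p m' := (Nat.Prime.coprime_iff_not_dvd hp).2 hm'
  rcases k with _ | k
  · rw [pow_zero, one_mul, if_neg hm', add_zero, hf.mul p m' hco]
  · have h1 : p ∣ p ^ (k + 1) * m' := Dvd.dvd.mul_right (dvd_pow_self p (Nat.succ_ne_zero k)) m'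
    have h2 : p ^ (k + 1) * m' / p = p ^ k * m' := by
      rw [pow_succ, mul_right_comm, Nat.mul_div_cancel _ hp.pos]
    rw [if_pos h1, h2]
    have h3 : p * (p ^ (k + 1) * m') = p ^ (k + 2) * m' := by ring
    rw [h3, hf.mul _ _ (Nat.Coprime.pow_left _ hco), hf.mul _ _ (Nat.Coprime.pow_left _ hco),
      hf.mul _ _ (Nat.Coprime.pow_left _ hco), hf.pow p k hp, if_neg hpN]
    ring

open Pool.Agent.Y18.BSD (hs_congr sum_exp)

/-- the Hecke operator on the Fourier series -/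
lemma ser_hecke {N m : ℕ} {s : ℕ → ℂ} (hgr : Gr s) (hf : HR N m s) {p : ℕ}
    (hp : p.Prime) (hpN : ¬ p ∣ N) {z : ℂ} (hz : 0 < z.im) :
    s p * ser s z = (p : ℂ) ^ (2 * m - 1) * ser s (p * z) +
      (p : ℂ)⁻¹ * ∑ j ∈ Finset.range p, ser s ((z + j) / p) := by
  have hp0 : 0 < p := hp.pos
  have hpr : (0 : ℝ) < p := by exact_mod_cast hp0
  have hpc : (p : ℂ) ≠ 0 := by exact_mod_cast hp0.ne'
  have hc0 : s 0 = 0 := hgr.zero
  have hinj : Function.Injective (fun n : ℕ => p * n) := fun a b h => Nat.eq_of_mul_eq_mul_left hp0 h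
  -- the first sum
  have him1 : 0 < ((p : ℂ) * z).im := by
    rw [show ((p : ℂ)) = ((p : ℝ) : ℂ) by push_cast; rfl, Complex.im_ofReal_mul]
    positivity
  have h1 : HasSum (fun n : ℕ => (if p ∣ n then (p : ℂ) ^ (2 * m - 1) * s (n / p) else 0) *
      Complex.exp (2 * Real.pi * Complex.I * n * z)) ((p : ℂ) ^ (2 * m - 1) * ser s (p * z)) := by
    have h2 := ((hgr.summable him1).hasSum).mul_left ((p : ℂ) ^ (2 * m - 1))
    rw [← hinj.hasSum_iff]
    · refine hs_congr h2 fun n => ?_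
      simp only [Function.comp_apply]
      have e : 2 * Real.pi * Complex.I * n * (p * z) =
          2 * Real.pi * Complex.I * ((p * n : ℕ) : ℂ) * z := by
        push_cast
        ring
      rw [if_pos (dvd_mul_right p n), Nat.mul_div_cancel_left n hp0, e]
      ring
    · intro n hn
      rw [if_neg, zero_mul]
      rintro ⟨k, rfl⟩
      exact hn ⟨k, rfl⟩
  -- the second sum
  have him2 : ∀ j : ℕ, 0 < ((z + j) / (p : ℂ)).im := by
    intro j
    have e : ((z + j) / (p : ℂ)).im = z.im / p := by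
      rw [show ((p : ℂ)) = ((p : ℝ) : ℂ) by push_cast; rfl, Complex.div_ofReal_im]
      simp
    rw [e]
    positivity
  have h3 : HasSum (fun n : ℕ => ∑ j ∈ Finset.range p, s n *
      Complex.exp (2 * Real.pi * Complex.I * n * ((z + j) / p)))
      (∑ j ∈ Finset.range p, ser s ((z + j) / p)) :=
    hasSum_sum fun j _ => (hgr.summable (him2 j)).hasSum
  have e4 : ∀ n : ℕ, ∑ j ∈ Finset.range p, s n *
      Complex.exp (2 * Real.pi * Complex.I * n * ((z + j) / p)) =
      s n * Complex.exp (2 * Real.pi * Complex.I * n * (z / p)) *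
        (if p ∣ n then (p : ℂ) else 0) := by
    intro n
    rw [← sum_exp p hp0 n, Finset.mul_sum]
    refine Finset.sum_congr rfl fun j _ => ?_
    rw [mul_assoc (s n), ← Complex.exp_add]
    congr 2
    ring
  simp only [e4] at h3
  have h5 : HasSum (fun n : ℕ => s (p * n) *
      Complex.exp (2 * Real.pi * Complex.I * n * z) * p)
      (∑ j ∈ Finset.range p, ser s ((z + j) / p)) := by
    rw [← hinj.hasSum_iff] at h3
    · refine hs_congr h3 fun n => ?_
      simp only [Function.comp_apply]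
      rw [if_pos (dvd_mul_right p n)]
      congr 3
      push_cast
      field_simp
    · intro n hn
      rw [if_neg, mul_zero]
      rintro ⟨k, rfl⟩
      exact hn ⟨k, rfl⟩
  have h6 := ((hgr.summable hz).hasSum).mul_left (s p)
  refine h6.unique (hs_congr (h1.add (h5.mul_left (p : ℂ)⁻¹)) fun n => ?_)
  rcases Nat.eq_zero_or_pos n with rfl | hn
  · simp [hc0]
  · have h7 := hf.coeff hp hpN n hn.ne'
    have e6 : (p : ℂ)⁻¹ * (s (p * n) * Complex.exp (2 * Real.pi * Complex.I * n * z) * p) =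
        s (p * n) * Complex.exp (2 * Real.pi * Complex.I * n * z) := by
      field_simp
    rw [e6, ← add_mul, add_comm, h7]
    ring

/-- the Hecke relation for the primitives -/
lemma G0_hecke {N m : ℕ} (hm : 1 ≤ m) {s : ℕ → ℂ} (hgr : Gr s) (hf : HR N m s) {p : ℕ}
    (hp : p.Prime) (hpN : ¬ p ∣ N) (r : ℚ) {z : ℂ} (hz : 0 < z.im) :
    s p * G0 s m r z = (p : ℂ) ^ (m - 1) * (G0 s m (p * r) (p * z) +
      ∑ j ∈ Finset.range p, G0 s m ((r + j) / p) ((z + j) / p)) := by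
  have hp0 : 0 < p := hp.pos
  have hpr : (0 : ℝ) < p := by exact_mod_cast hp0
  have hpc : (p : ℂ) ≠ 0 := by exact_mod_cast hp0.ne'
  have him1 : ∀ w : ℂ, 0 < w.im → 0 < ((p : ℂ) * w).im := by
    intro w hw
    rw [show ((p : ℂ)) = ((p : ℝ) : ℂ) by push_cast; rfl, Complex.im_ofReal_mul]
    positivity
  have him2 : ∀ (j : ℕ) (w : ℂ), 0 < w.im → 0 < ((w + j) / (p : ℂ)).im := by
    intro j w hw
    have e : ((w + j) / (p : ℂ)).im = w.im / p := by
      rw [show ((p : ℂ)) = ((p : ℝ) : ℂ) by push_cast; rfl, Complex.div_ofReal_im]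
      simp
    rw [e]
    positivity
  have hmm : (p : ℂ) ^ (2 * m - 1) = (p : ℂ) ^ (m - 1) * (p : ℂ) ^ (m - 1) * p := by
    rw [← pow_add, ← pow_succ]
    congr 1
    omega
  refine prim_unique (F := fun z => s p * G0 s m r z)
    (G := fun z => (p : ℂ) ^ (m - 1) * (G0 s m (p * r) (p * z) +
      ∑ j ∈ Finset.range p, G0 s m ((r + j) / p) ((z + j) / p)))
    (D := fun z => s p * -(ser s z * (z - r) ^ (m - 1))) (x := 0)
    (fun w hw => (G0_deriv hgr hm r hw).const_mul _) (fun w hw => ?_) ?_ ?_ hz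
  · have h1 : HasDerivAt (fun z : ℂ => G0 s m (p * r) (p * z))
        (-(ser s (p * w) * (p * w - ((p * r : ℚ) : ℂ)) ^ (m - 1)) * p) w := by
      have h2 := G0_deriv hgr hm (p * r) (him1 w hw)
      have h3 : HasDerivAt (fun w : ℂ => (p : ℂ) * w) p w := by
        simpa using (hasDerivAt_id w).const_mul (p : ℂ)
      exact HasDerivAt.comp (h₂ := G0 s m (p * r)) w h2 h3
    have h4 : ∀ j ∈ Finset.range p, HasDerivAt (fun z : ℂ => G0 s m ((r + j) / p) ((z + j) / p))
        (-(ser s ((w + j) / p) * ((w + j) / p - (((r + j) / p : ℚ) : ℂ)) ^ (m - 1)) * (1 / p)) w := by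
      intro j _
      have h2 := G0_deriv hgr hm ((r + j) / p) (him2 j w hw)
      have h3 : HasDerivAt (fun w : ℂ => (w + j) / (p : ℂ)) (1 / p) w := by
        simpa using ((hasDerivAt_id w).add_const (j : ℂ)).div_const (p : ℂ)
      exact HasDerivAt.comp (h₂ := G0 s m ((r + j) / p)) w h2 h3
    refine ((h1.add (HasDerivAt.fun_sum h4)).const_mul ((p : ℂ) ^ (m - 1))).congr_deriv ?_
    have h5 := ser_hecke hgr hf hp hpN hw
    have e1 : (p * w - ((p * r : ℚ) : ℂ)) ^ (m - 1) = (p : ℂ) ^ (m - 1) * (w - r) ^ (m - 1) := by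
      rw [← mul_pow]
      congr 1
      push_cast
      ring
    have e2 : ∀ j : ℕ, ((w + j) / p - (((r + j) / p : ℚ) : ℂ)) ^ (m - 1) =
        (w - r) ^ (m - 1) / (p : ℂ) ^ (m - 1) := by
      intro j
      rw [← div_pow]
      congr 1
      push_cast
      field_simp
      ring
    have e3 : ∑ j ∈ Finset.range p, -(ser s ((w + j) / p) *
        ((w + j) / p - (((r + j) / p : ℚ) : ℂ)) ^ (m - 1)) * (1 / (p : ℂ)) =
        -((w - r) ^ (m - 1) / (p : ℂ) ^ (m - 1)) * ((p : ℂ)⁻¹ *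
          ∑ j ∈ Finset.range p, ser s ((w + j) / p)) := by
      rw [Finset.mul_sum, Finset.mul_sum]
      refine Finset.sum_congr rfl fun j _ => ?_
      rw [e2]
      ring
    rw [e3, e1]
    have h6 : (p : ℂ)⁻¹ * ∑ j ∈ Finset.range p, ser s ((w + j) / p) =
        s p * ser s w - (p : ℂ) ^ (2 * m - 1) * ser s (p * w) := by
      rw [h5]; ring
    rw [h6, hmm]
    have hpm : (p : ℂ) ^ (m - 1) ≠ 0 := pow_ne_zero _ hpc
    field_simp
    ring
  · have h1 := (G0_line hgr m r 0).const_mul (s p)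
    rw [mul_zero] at h1
    exact h1
  · have t1 : Tendsto (fun T : ℝ => (p : ℝ) * T) atTop atTop := tendsto_id.const_mul_atTop hpr
    have t2 : Tendsto (fun T : ℝ => T / (p : ℝ)) atTop atTop := tendsto_id.atTop_div_const hpr
    have h1 := (G0_line hgr m (p * r) 0).comp t1
    have h2 : ∀ j ∈ Finset.range p, Tendsto (fun T : ℝ => G0 s m ((r + j) / p)
        ((((0 : ℝ) : ℂ) + (T : ℂ) * Complex.I + j) / p)) atTop (𝓝 0) := by
      intro j _
      refine ((G0_line hgr m ((r + j) / p) ((j : ℝ) / p)).comp t2).congr fun T => ?_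
      simp only [Function.comp_apply]
      congr 1
      push_cast
      ring
    have h3 := (h1.add (tendsto_finsetSum (Finset.range p) h2)).const_mul ((p : ℂ) ^ (m - 1))
    rw [Finset.sum_const_zero, add_zero, mul_zero] at h3
    refine h3.congr fun T => ?_
    simp only [Function.comp_apply]
    congr 3
    push_cast
    ring

/-- the integral structure -/
theorem sy_spec {N : ℕ} [NeZero N] {m : ℕ} (hm : 1 ≤ m) {s : ℕ → ℂ} {ε : ℂ} (h : Md N m s ε) :
    (∀ r : ℚ, r.den.Coprime N → Tendsto (fun y : ℝ => G0 s m r ((r : ℂ) + (y : ℂ) * Complex.I))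
      (𝓝[>] 0) (𝓝 (sy s N m r))) ∧
    ∃ V : Submodule ℤ ℂ, V.FG ∧ ∀ r : ℚ, r.den.Coprime N →
      (r.den : ℂ) ^ (m - 1) * sy s N m r ∈ V := by
  obtain ⟨V, hV, hC⟩ := exists_cusp hm h
  have key : ∀ r : ℚ, r.den.Coprime N → ∃ c ∈ V, Tendsto (fun y : ℝ => G0 s m r
      ((r : ℂ) + (y : ℂ) * Complex.I)) (𝓝[>] 0) (𝓝 (((r.den : ℂ) ^ (m - 1))⁻¹ * c)) := by
    intro r hr
    have hd : (0 : ℕ) < r.den := r.den_pos
    have hdc : (r.den : ℂ) ≠ 0 := by exact_mod_cast hd.ne'
    have hdq : (r.den : ℚ) ≠ 0 := by exact_mod_cast hd.ne'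
    set P : ℚ[X] := (C ((r.den : ℤ) : ℚ) * X + C ((-r.num : ℤ) : ℚ)) ^ (m - 1) with hP
    have hPi : IZ P := ((((IZ.C _).mul IZ.X).add (IZ.C _)).pow _)
    have hPe : P = C ((r.den : ℚ) ^ (m - 1)) * (X - C r) ^ (m - 1) := by
      rw [hP, C_pow, ← mul_pow]
      congr 1
      rw [mul_sub, ← C_mul, Rat.den_mul_eq_num]
      push_cast
      rw [C_neg]
      ring
    have hPd : P.natDegree < 2 * m - 1 := by
      have h1 : ((X - C r : ℚ[X]) ^ (m - 1)).natDegree ≤ m - 1 := by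
        refine (natDegree_pow_le).trans ?_
        rw [natDegree_X_sub_C, mul_one]
      have h2 : P.natDegree ≤ ((X - C r : ℚ[X]) ^ (m - 1)).natDegree := by
        rw [hPe]
        exact natDegree_C_mul_le _ _
      omega
    have hco : IsCoprime ((r.den : ℕ) : ℤ) (N * r.num) := by
      refine IsCoprime.mul_right (Nat.isCoprime_iff_coprime.2 hr) ?_
      have := r.isCoprime_num_den
      exact this.symm
    obtain ⟨c, hc, hl⟩ := hC P hPi hPd r.den r.num hd hco
    refine ⟨c, hc, ?_⟩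
    have h1 := hl.const_mul (((r.den : ℂ) ^ (m - 1))⁻¹)
    refine h1.congr fun y => ?_
    have e1 : PC P = C ((r.den : ℂ) ^ (m - 1)) * PC ((X - C r) ^ (m - 1)) := by
      rw [hPe]
      unfold PC
      rw [Polynomial.map_mul, Polynomial.map_C]
      congr 2
      simp
    have e2 : ((r.num : ℂ) / (r.den : ℕ) + (y : ℂ) * Complex.I) = (r : ℂ) + (y : ℂ) * Complex.I := by
      rw [Rat.cast_def r]
    rw [e1, Gp_C_mul, e2, ← mul_assoc, inv_mul_cancel₀ (pow_ne_zero _ hdc), one_mul]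
    rfl
  have key2 : ∀ r : ℚ, r.den.Coprime N → Tendsto (fun y : ℝ => G0 s m r
      ((r : ℂ) + (y : ℂ) * Complex.I)) (𝓝[>] 0) (𝓝 (sy s N m r)) := by
    intro r hr
    obtain ⟨c, hc, hl⟩ := key r hr
    unfold sy
    rw [if_pos hr]
    exact tendsto_nhds_limUnder ⟨_, hl⟩
  refine ⟨key2, V, hV, fun r hr => ?_⟩
  obtain ⟨c, hc, hl⟩ := key r hr
  have hd : (0 : ℕ) < r.den := r.den_pos
  have hdc : (r.den : ℂ) ≠ 0 := by exact_mod_cast hd.ne'
  rw [tendsto_nhds_unique (key2 r hr) hl, ← mul_assoc, mul_inv_cancel₀ (pow_ne_zero _ hdc), one_mul]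
  exact hc

open Pool.Agent.Y18.BSD (den_mul_iff den_div_iff)

/-- **The Hecke relation for the symbols.** -/
theorem sy_hecke {N : ℕ} [NeZero N] {m : ℕ} (hm : 1 ≤ m) {s : ℕ → ℂ} {ε : ℂ} (h : Md N m s ε)
    (hf : HR N m s) {p : ℕ} (hp : p.Prime) (hpN : ¬ p ∣ N) (r : ℚ) :
    s p * sy s N m r = (p : ℂ) ^ (m - 1) * (sy s N m (p * r) +
      ∑ u ∈ Finset.range p, sy s N m ((r + u) / p)) := by
  have hco : p.Coprime N := (Nat.Prime.coprime_iff_not_dvd hp).2 hpN
  have hpr : (0 : ℝ) < p := by exact_mod_cast hp.pos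
  have hpc : (p : ℂ) ≠ 0 := by exact_mod_cast hp.ne_zero
  have hT := (sy_spec hm h).1
  by_cases hr : r.den.Coprime N
  · have h1 := hT (p * r) ((den_mul_iff r hco).2 hr)
    have h2 := fun u : ℕ => hT ((r + u) / p) ((den_div_iff r u hco hp.ne_zero).2 hr)
    have h3 := hT r hr
    have t1 : Tendsto (fun y : ℝ => (p : ℝ) * y) (𝓝[>] 0) (𝓝[>] 0) := by
      refine tendsto_nhdsWithin_iff.2 ⟨?_, ?_⟩
      · have : Tendsto (fun y : ℝ => (p : ℝ) * y) (𝓝 0) (𝓝 ((p : ℝ) * 0)) :=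
          tendsto_id.const_mul _
        rw [mul_zero] at this
        exact this.mono_left nhdsWithin_le_nhds
      · filter_upwards [self_mem_nhdsWithin] with y (hy : 0 < y)
        exact mul_pos hpr hy
    have t2 : Tendsto (fun y : ℝ => y / (p : ℝ)) (𝓝[>] 0) (𝓝[>] 0) := by
      refine tendsto_nhdsWithin_iff.2 ⟨?_, ?_⟩
      · have : Tendsto (fun y : ℝ => y / (p : ℝ)) (𝓝 0) (𝓝 ((0 : ℝ) / p)) :=
          tendsto_id.div_const _
        rw [zero_div] at this
        exact this.mono_left nhdsWithin_le_nhds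
      · filter_upwards [self_mem_nhdsWithin] with y (hy : 0 < y)
        exact div_pos hy hpr
    have h4 := ((h1.comp t1).add (tendsto_finsetSum (Finset.range p) fun u _ =>
      (h2 u).comp t2)).const_mul ((p : ℂ) ^ (m - 1))
    refine tendsto_nhds_unique (h3.const_mul (s p)) (h4.congr' ?_)
    filter_upwards [self_mem_nhdsWithin] with y (hy : 0 < y)
    have h5 := G0_hecke hm h.gr hf hp hpN r (z := (r : ℂ) + (y : ℂ) * Complex.I) (by simpa using hy)
    rw [h5]
    simp only [Function.comp_apply]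
    congr 2
    · congr 1
      push_cast
      ring
    · refine Finset.sum_congr rfl fun u _ => ?_
      congr 1
      push_cast
      ring
  · have h1 : ¬ ((p : ℚ) * r).den.Coprime N := fun h => hr ((den_mul_iff r hco).1 h)
    have h2 : ∀ u : ℕ, ¬ ((r + u) / (p : ℚ)).den.Coprime N :=
      fun u h => hr ((den_div_iff r u hco hp.ne_zero).1 h)
    have h3 : sy s N m r = 0 := if_neg hr
    have h4 : sy s N m (p * r) = 0 := if_neg h1
    have h5 : ∀ u : ℕ, sy s N m ((r + u) / p) = 0 := fun u => if_neg (h2 u)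
    simp [h3, h4, h5]

lemma sy_period {N : ℕ} [NeZero N] {m : ℕ} (hm : 1 ≤ m) {s : ℕ → ℂ} {ε : ℂ} (h : Md N m s ε)
    (r : ℚ) : sy s N m (r + 1) = sy s N m r := by
  have h1 : (r + 1).den = r.den := by
    have := Rat.add_intCast_den r 1
    simp
  by_cases hr : r.den.Coprime N
  · have h2 := (sy_spec hm h).1 (r + 1) (by rw [h1]; exact hr)
    refine tendsto_nhds_unique h2 (((sy_spec hm h).1 r hr).congr' ?_)
    filter_upwards [self_mem_nhdsWithin] with y (hy : 0 < y)
    rw [← G0_add_one h.gr hm r (z := (r : ℂ) + (y : ℂ) * Complex.I) (by simpa using hy)]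
    congr 1
    push_cast
    ring
  · have h2 : sy s N m r = 0 := if_neg hr
    have h3 : sy s N m (r + 1) = 0 := if_neg (by rw [h1]; exact hr)
    rw [h2, h3]

end Pool.Agent.K4H13.HW
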