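import Pool.Agent.K4H13.HW.Good
import Pool.Agent.K4H55.AB.Corr

/-!
# Project HW: corrections for the sums with fixed characters, arbitrary even weights
-/

set_option autoImplicit false

namespace Pool.Agent.K4H13.HW

open Finset Pool.Agent.Y18.BSD Pool.Agent.Y18.LP Pool.Agent.K4H55.AB

section main

variable {ι : Type} [Fintype ι] {N κ : ι → ℕ} {f : ι → ℚ → ℂ} {a : ι → ℕ → ℂ} {m : ι → ℕ}
  {h : (i : ι) → (ZMod (m i))ˣ →* ℂˣ}

/-- the admissible primes -/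
def AdK (l : ℕ) (N : ι → ℕ) (a : ι → ℕ → ℂ) (m : ι → ℕ) (h : (i : ι) → (ZMod (m i))ˣ →* ℂˣ)
    (lam : Ideal (integralClosure ℤ ℂ)) : Set ℕ :=
  {q | q.Prime ∧ q ≡ 1 [MOD l] ∧ ∀ i, ¬ q ∣ N i ∧ q.Coprime (m i) ∧
    ∀ x ∈ lam, (x : ℂ) ≠ a i q - ((hv (h i) q)⁻¹ : ℂˣ) - (hv (h i) q : ℂˣ)}

open Pool.Agent.Y18.BSD (den_mul_iff den_div_iff)

lemma den_div_dvd (r : ℚ) (u : ℕ) {q : ℕ} (hq : q ≠ 0) : ((r + u) / (q : ℚ)).den ∣ q * r.den := by
  have hd : (r.den : ℚ) ≠ 0 := by exact_mod_cast r.den_nz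
  have hq' : (q : ℚ) ≠ 0 := by exact_mod_cast hq
  have h1 : (r + u) / (q : ℚ) = ((r.num + u * r.den : ℤ) : ℚ) / ((q * r.den : ℕ) : ℤ) := by
    push_cast
    rw [div_eq_div_iff hq' (mul_ne_zero hq' hd)]
    have h2 : r * r.den = r.num := Rat.mul_den_eq_num r
    linear_combination (q : ℚ) * h2
  rw [h1]
  have h3 := Rat.den_dvd (r.num + u * r.den) ((q * r.den : ℕ) : ℤ)
  rw [← Rat.divInt_eq_div]
  exact_mod_cast h3

lemma den_mul_dvd (r : ℚ) (q : ℕ) : ((q : ℚ) * r).den ∣ q * r.den := by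
  have h1 := Rat.mul_den_dvd (q : ℚ) r
  rw [Rat.den_natCast, one_mul] at h1
  exact h1.trans (dvd_mul_left _ _)

/-- the ring and the ideal -/
theorem setupK (hms : ∀ i, MK (N i) (κ i) (f i) (a i))
    (h0 : ∀ i, ∃ x ∈ SS (N i) (κ i) (f i), x ≠ 0) {l : ℕ}
    (hl : l.Prime) (n E0 : ℕ) (hE0 : 0 < E0) (hE : ∀ i u, h i u ^ E0 = 1)
    (lam : Ideal (integralClosure ℤ ℂ)) (hlam : lam.IsPrime)
    (hmem : (l : integralClosure ℤ ℂ) ∈ lam) :
    ∃ (R : Subring ℂ) (_ : IsNoetherianRing R) (P : Ideal R) (al zh zi : ι → ℕ → R), P.IsMaximal ∧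
      (∀ z : ℂ, z ^ (l ^ n * E0) = 1 → z ∈ R) ∧ (∀ z : R, (z : ℂ) ^ (l ^ n) = 1 → 1 - z ∈ P) ∧
      ∀ i, ∀ q ∈ AdK l N a m h lam, q.Prime ∧ ¬ q ∣ N i ∧ q.Coprime (m i) ∧ ((q : R) - 1 ∈ P) ∧
        (al i q : ℂ) = a i q ∧
        (zh i q : ℂ) = (hv (h i) q : ℂˣ) ∧ (zi i q : ℂ) = ((hv (h i) q)⁻¹ : ℂˣ) ∧
        al i q - zi i q - zh i q ∉ P := by
  classical
  choose x0 hx0 hx1 using h0
  have he : 0 < l ^ n * E0 := Nat.mul_pos (pow_pos hl.pos n) hE0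
  let W1 : Submodule ℤ ℂ := (∏ i, Submodule.span ℤ (SS (N i) (κ i) (f i))) * Zr (l ^ n * E0)
  have hfg : W1.FG := (fg_prod univ _ fun i _ => (hms i).fin).mul (Zr_fg he)
  have hfin : Module.Finite ℤ W1 := Module.Finite.iff_fg.2 hfg
  have hw : (∏ i, x0 i) * 1 ∈ W1 := Submodule.mul_mem_mul
    (prod_mem' univ _ _ fun i _ => Submodule.subset_span (hx0 i)) (Zr_one _)
  have hw0 : (∏ i, x0 i) * 1 ≠ 0 := by
    rw [mul_one]
    exact Finset.prod_ne_zero_iff.2 fun i _ => hx1 i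
  let R : Subring ℂ := Mult W1
  have hRfin : Module.Finite ℤ R := finite_Mult hw hw0
  have hnoeth : IsNoetherianRing R := IsNoetherianRing.of_finite ℤ R
  have hRroot : ∀ z : ℂ, z ^ (l ^ n * E0) = 1 → z ∈ R := fun z hz => mul_Mult' (Zr_Mult hz)
  have haR : ∀ i, ∀ q : ℕ, q.Prime → ¬ q ∣ N i → a i q ∈ R := by
    intro i q hq hqN
    have hco : q.Coprime (N i) := (Nat.Prime.coprime_iff_not_dvd hq).2 hqN
    refine mul_Mult (prod_Mult univ _ (Finset.mem_univ i) ?_)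
    intro w hw
    induction hw using Submodule.span_induction with
    | mem x hx =>
      obtain ⟨r, hr, rfl⟩ := hx
      have e1 : a i q * ((r.den : ℂ) ^ κ i * f i r) =
          ((q * r.den : ℕ) : ℂ) ^ κ i * f i (q * r) +
            ∑ u ∈ range q, ((q * r.den : ℕ) : ℂ) ^ κ i * f i ((r + u) / q) := by
        rw [← Finset.mul_sum, ← mul_add]
        have h1 := (hms i).hecke q hq hqN r
        push_cast
        rw [mul_pow]
        linear_combination ((r.den : ℂ) ^ κ i) * h1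
      rw [e1]
      exact Submodule.add_mem _ (mem_SS ((den_mul_iff r hco).2 hr) (den_mul_dvd r q))
        (Submodule.sum_mem _ fun u _ => mem_SS ((den_div_iff r u hco hq.ne_zero).2 hr)
          (den_div_dvd r u hq.ne_zero))
    | zero => rw [mul_zero]; exact Submodule.zero_mem _
    | add x y _ _ h1 h2 => rw [mul_add]; exact Submodule.add_mem _ h1 h2
    | smul c x _ h => rw [mul_smul_comm]; exact Submodule.smul_mem _ _ h
  have hroot : ∀ z : ℂˣ, z ^ E0 = 1 → (z : ℂ) ∈ R := by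
    intro z hz
    refine hRroot _ ?_
    have h1 : (z : ℂ) ^ E0 = 1 := by
      have := congrArg Units.val hz
      simpa using this
    rw [mul_comm, pow_mul, h1, one_pow]
  have hz : ∀ i q, ((hv (h i) q : ℂˣ) : ℂ) ∈ R := fun i q => hroot _ (hv_pow (hE i) q)
  have hz' : ∀ i q, (((hv (h i) q)⁻¹ : ℂˣ) : ℂ) ∈ R := fun i q => hroot _ (by
    rw [inv_pow, hv_pow (hE i) q, inv_one])
  let P : Ideal R := lam.comap (incl hRfin)
  refine ⟨R, hnoeth, P, fun i q => if h : a i q ∈ R then ⟨a i q, h⟩ else 0,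
    fun i q => ⟨_, hz i q⟩, fun i q => ⟨_, hz' i q⟩,
    comap_maximal lam hRfin hlam hl hmem, hRroot, ?_, ?_⟩
  · intro z hz
    rw [Ideal.mem_comap, map_sub, map_one]
    refine one_sub_mem lam hlam hl hmem (n := n) _ ?_
    apply Subtype.ext
    have h1 : ((incl hRfin z ^ (l ^ n) : integralClosure ℤ ℂ) : ℂ) =
        ((incl hRfin z : integralClosure ℤ ℂ) : ℂ) ^ (l ^ n) := rfl
    rw [h1, incl_coe, hz]
    rfl
  · rintro i q ⟨hq, hql, hqA⟩
    obtain ⟨h1, h2, h2'⟩ := hqA i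
    have h3 := haR i q hq h1
    refine ⟨hq, h1, h2, ?_, ?_, rfl, rfl, ?_⟩
    · rw [Ideal.mem_comap, map_sub, map_one, map_natCast]
      obtain ⟨k, hk⟩ := (Nat.modEq_iff_dvd.1 hql.symm : (l : ℤ) ∣ (q : ℤ) - (1 : ℕ))
      have h4 : ((q : ℕ) : integralClosure ℤ ℂ) - 1 = (l : integralClosure ℤ ℂ) * (k : ℤ) := by
        have h5 := congrArg (Int.cast (R := integralClosure ℤ ℂ)) hk
        push_cast at h5
        exact h5
      rw [h4]
      exact lam.mul_mem_right _ hmem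
    · simp only [dif_pos h3]
    · simp only [dif_pos h3]
      intro h4
      rw [Ideal.mem_comap] at h4
      refine h2' _ h4 ?_
      rw [incl_coe]
      rfl

/-- **one more generator** -/
theorem extK (hms : ∀ i, MK (N i) (κ i) (f i) (a i)) (hm : ∀ i, m i ≠ 0)
    (hmN : ∀ i, (m i).Coprime (N i)) {l : ℕ} (hl : l.Prime)
    (n E0 : ℕ) (hE0 : 0 < E0) (hE : ∀ i u, h i u ^ E0 = 1)
    (lam : Ideal (integralClosure ℤ ℂ)) (hlam : lam.IsPrime)
    (hmem : (l : integralClosure ℤ ℂ) ∈ lam) (H : Subgroup Fam)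
    (hH : Ok H (l ^ n) (AdK l N a m h lam)) (F : Subgroup Fam) (hF : (F : Set Fam).Finite)
    (hFH : F ≤ H) (hFn : ∀ c ∈ F, ∀ i, bth (f i) (h i) c ≠ 0) :
    ∃ K : Finset Fam, (∀ k ∈ K, k ∈ H) ∧ ∀ c ∈ H, ∃ k ∈ K, ∀ g ∈ F, ∀ j : ℕ, ∀ i,
      bth (f i) (h i) (g * (c * k) ^ j) ≠ 0 := by
  classical
  have he : 0 < l ^ n := pow_pos hl.pos n
  -- the moduli
  have hnz : ∀ c ∈ H, ∀ i, m i * dd (sp c) ≠ 0 := fun c hc i =>
    mul_ne_zero (hm i) (dd_ne_zero fun q hq => (hH.adm c hc q ((mem_sp (hH.fin c hc) q).1 hq)).1)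
  have hcoN : ∀ c ∈ H, ∀ i, (m i * dd (sp c)).Coprime (N i) := fun c hc i => by
    refine Nat.Coprime.mul_left (hmN i) ?_
    unfold dd
    refine Nat.Coprime.prod_left fun q hq => ?_
    obtain ⟨h1, -, h2⟩ := hH.adm c hc q ((mem_sp (hH.fin c hc) q).1 hq)
    exact (Nat.Prime.coprime_iff_not_dvd h1).2 (h2 i).1
  have hex : ∀ i, ∃ x ∈ SS (N i) (κ i) (f i), x ≠ 0 := by
    intro i
    have h1 := hFn 1 F.one_mem i
    have : NeZero (m i * dd (sp 1)) := ⟨hnz 1 H.one_mem i⟩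
    rw [bth_eq (f i) (h i) 1 _ rfl] at h1
    by_contra hcon
    push Not at hcon
    apply h1
    unfold psh ps
    refine Finset.sum_eq_zero fun u _ => ?_
    have h2 : FF (f i) (m i * dd (sp 1)) u = 0 := by
      have h3 := hcon _ ⟨(((u : ZMod (m i * dd (sp 1))).val : ℕ) : ℚ) / (m i * dd (sp 1) : ℕ),
        by rw [den_unit u]; exact hcoN 1 H.one_mem i, rfl⟩
      rcases mul_eq_zero.1 h3 with h4 | h4
      · exfalso
        refine pow_ne_zero _ ?_ h4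
        exact_mod_cast Rat.den_nz _
      · exact h4
    rw [h2, mul_zero]
  obtain ⟨R, hR0, P, al, zh, zi, hP, hR, hP1, hA⟩ := setupK (h := h) hms hex hl n E0
    hE0 hE lam hlam hmem
  have hRe : ∀ z : ℂ, z ^ (l ^ n) = 1 → z ∈ R := fun z hz => hR z (by rw [pow_mul, hz, one_pow])
  have hEE : ∀ i u, h i u ^ (l ^ n * E0) = 1 := fun i u => by
    rw [mul_comm, pow_mul, hE, one_pow]
  set s : Finset (ι × Fam × ℕ) := univ ×ˢ (hF.toFinset ×ˢ range (l ^ n)) with hs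
  have hmems : ∀ x : ι × Fam × ℕ, x ∈ s ↔ x.2.1 ∈ F ∧ x.2.2 < l ^ n := by
    intro x
    rw [hs, Finset.mem_product, Finset.mem_product, Set.Finite.mem_toFinset, Finset.mem_range]
    simp
  have hg := Good.prod (Γ := H) (e := l ^ n) hP.isPrime s
    (fun x => Submodule.span R (SS (N x.1) (κ x.1) (f x.1)))
    (fun x (c : H) => nb (κ x.1) (f x.1) (h x.1) (x.2.1 * (c : Fam) ^ x.2.2))
    (fun x hx => by
      have h1 := (goodK (hms x.1) (dvd_mul_right _ _) hR (hm x.1) (hmN x.1) (hEE x.1) (al x.1)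
        (zh x.1) (zi x.1) hP.isPrime hP1 hH (hA x.1)).comp hRe
        ⟨x.2.1, hFH ((hmems x).1 hx).1⟩ x.2.2
      exact h1)
  have hval : ∏ x ∈ s, nb (κ x.1) (f x.1) (h x.1) (x.2.1 * ((1 : H) : Fam) ^ x.2.2) ≠ 0 := by
    refine Finset.prod_ne_zero_iff.2 fun x hx => ?_
    have e1 : ((1 : H) : Fam) ^ x.2.2 = 1 := one_pow x.2.2
    have e3 : x.2.1 * ((1 : H) : Fam) ^ x.2.2 = x.2.1 := by
      rw [e1]
      exact mul_one x.2.1
    rw [e3]
    exact (nb_ne (hnz _ (hFH ((hmems x).1 hx).1) x.1)).2 (hFn _ ((hmems x).1 hx).1 _)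
  obtain ⟨V, hV⟩ := krull hP.ne_top (fg_prod s _ fun i _ => span_fg' (hms i.1).fin) (hg.mem 1) hval
  obtain ⟨K, hK1, hK2⟩ := correction hRe hP hP1 hg (V := V) hV
  refine ⟨(K.map (fun c : H => (c : Fam))).toFinset, ?_, ?_⟩
  · intro k hk
    rw [List.mem_toFinset, List.mem_map] at hk
    obtain ⟨c, _, rfl⟩ := hk
    exact c.2
  · intro c hc
    obtain ⟨k, hk, h1⟩ := hK2 ⟨c, hc⟩
    refine ⟨k, ?_, fun g hg j i => ?_⟩
    · rw [List.mem_toFinset, List.mem_map]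
      exact ⟨k, hk, rfl⟩
    · have hpow : (c * (k : Fam)) ^ j = (c * (k : Fam)) ^ (j % l ^ n) := by
        have h2 : (c * (k : Fam)) ^ (l ^ n) = 1 := hH.pow _ (H.mul_mem hc k.2)
        exact pow_mod' (G := Fam) (x := c * (k : Fam)) h2 j
      rw [hpow]
      have h3 := Finset.prod_ne_zero_iff.1 h1 (i, g, j % l ^ n)
        ((hmems _).2 ⟨hg, Nat.mod_lt _ he⟩)
      have h4 : g * (c * (k : Fam)) ^ (j % l ^ n) ∈ H :=
        H.mul_mem (hFH hg) (H.pow_mem (H.mul_mem hc k.2) _)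
      exact (nb_ne (hnz _ h4 i)).1 h3

/-- **infinite subgroups** -/
theorem infiniteK (hms : ∀ i, MK (N i) (κ i) (f i) (a i)) (hm : ∀ i, m i ≠ 0)
    (hmN : ∀ i, (m i).Coprime (N i)) {l : ℕ} (hl : l.Prime)
    (n E0 : ℕ) (hE0 : 0 < E0) (hE : ∀ i u, h i u ^ E0 = 1)
    (lam : Ideal (integralClosure ℤ ℂ)) (hlam : lam.IsPrime)
    (hmem : (l : integralClosure ℤ ℂ) ∈ lam) (H : Subgroup Fam)
    (hH : Ok H (l ^ n) (AdK l N a m h lam)) (hinf : (H : Set Fam).Infinite)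
    (h0 : ∀ i, bth (f i) (h i) 1 ≠ 0) :
    ∃ H0 : Subgroup Fam, H0 ≤ H ∧ (H0 : Set Fam).Infinite ∧
      ∀ c ∈ H0, ∀ i, bth (f i) (h i) c ≠ 0 := by
  classical
  let Z : Set (Subgroup Fam) := {G | G ≤ H ∧ ∀ c ∈ G, ∀ i, bth (f i) (h i) c ≠ 0}
  obtain ⟨G, hFG, hG⟩ := zorn_le_nonempty₀ Z (by
    intro C hC hchain G0 hG0
    refine ⟨sSup C, ⟨sSup_le fun G hG => (hC hG).1, fun c hc i => ?_⟩, fun G hG => le_sSup hG⟩
    have hdir : DirectedOn (· ≤ ·) C := hchain.directedOn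
    rw [Subgroup.mem_sSup_of_directedOn ⟨G0, hG0⟩ hdir] at hc
    obtain ⟨G, hG, hcG⟩ := hc
    exact (hC hG).2 c hcG i) (⊥ : Subgroup Fam) ⟨bot_le, fun c hc => by
      rw [Subgroup.mem_bot] at hc
      rw [hc]
      exact h0⟩
  refine ⟨G, hG.prop.1, ?_, hG.prop.2⟩
  intro hfin
  obtain ⟨K, hK1, hK2⟩ := extK hms hm hmN hl n E0 hE0 hE lam hlam hmem H hH G hfin hG.prop.1
    hG.prop.2
  -- an element of `H` all of whose translates are outside of `G`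
  have hbad : (⋃ k ∈ K, (fun g : Fam => g * k⁻¹) '' (G : Set Fam)).Finite :=
    Set.Finite.biUnion (Finset.finite_toSet K) fun k _ => hfin.image _
  obtain ⟨c, hcH, hc⟩ := hinf.exists_notMem_finite hbad
  obtain ⟨k, hk, h1⟩ := hK2 c hcH
  have hckG : c * k ∉ G := by
    intro h2
    apply hc
    simp only [Set.mem_iUnion]
    exact ⟨k, hk, c * k, h2, mul_inv_cancel_right c k⟩
  have hckH : c * k ∈ H := H.mul_mem hcH (hK1 k hk)
  have hle : G ⊔ Subgroup.zpowers (c * k) ∈ Z := by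
    refine ⟨sup_le hG.prop.1 (by rwa [Subgroup.zpowers_le]), ?_⟩
    intro x hx i
    obtain ⟨g, hg, y, hy, rfl⟩ := (Subgroup.mem_sup (C := Fam)).1 hx
    obtain ⟨j, rfl⟩ := Subgroup.mem_zpowers_iff.1 hy
    have he : 0 < l ^ n := pow_pos hl.pos n
    have h2 : (c * k) ^ (l ^ n) = 1 := hH.pow _ hckH
    obtain ⟨M, hM⟩ : ∃ M : ℕ, (c * k) ^ j = (c * k) ^ M := zpow_mod' (G := Fam) (x := c * k) he h2 j
    have h3 : g * (c * k) ^ j = g * (c * k) ^ M := congrArg (fun y => g * y) hM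
    intro h5
    refine h1 g hg M i ?_
    have h6 : bth (f i) (h i) (g * (c * k) ^ j) = bth (f i) (h i) (g * (c * k) ^ M) :=
      congrArg (bth (f i) (h i)) h3
    exact h6.symm.trans h5
  have h3 := hG.le_of_ge hle le_sup_left
  exact hckG (h3 (Subgroup.mem_sup_right (Subgroup.mem_zpowers _)))

end main

end Pool.Agent.K4H13.HW
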