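import Pool.Agent.K4H13.HW.Corr
import Pool.Agent.R425.T.Tow

/-!
# Project HW: enlarging a group of characters by a cyclic group of prime power order
-/

set_option autoImplicit false

namespace Pool.Agent.K4H13.HW

open Finset Pool.Agent.Y18.BSD Pool.Agent.Y18.LP Pool.Agent.K4H55.AB
open Pool.Agent.R901.EC (reps cvl_mul' cvl_pow')
open Pool.Agent.R425.T (par par_mul par_pow chv)

/-! ### supports -/

lemma mul_apx (c d : Fam) (q : ℕ) (x : (ZMod q)ˣ) : (c * d) q x = c q x * d q x := rfl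

lemma mul_ap_right (c : Fam) {d : Fam} {q : ℕ} (h : d q = 1) : (c * d) q = c q := by
  ext x
  rw [mul_apx, h, MonoidHom.one_apply, mul_one]

lemma mul_ap_left {c : Fam} (d : Fam) {q : ℕ} (h : c q = 1) : (c * d) q = d q := by
  ext x
  rw [mul_apx, h, MonoidHom.one_apply, one_mul]

lemma inv_ap_one {c : Fam} {q : ℕ} (h : c q = 1) : (c⁻¹ : Fam) q = 1 := by
  ext x
  have h1 : (c⁻¹ : Fam) q x = (c q x)⁻¹ := rfl
  rw [h1, h, MonoidHom.one_apply, inv_one]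

lemma fam_pow_ap (c : Fam) (j q : ℕ) (x : (ZMod q)ˣ) : (c ^ j) q x = (c q x) ^ j := rfl

/-- `c` is a product of characters modulo primes which do not divide the `N i` -/
structure Sup {ι : Type} (N : ι → ℕ) (c : Fam) : Prop where
  fin : {q | c q ≠ 1}.Finite
  pr : ∀ q, c q ≠ 1 → q.Prime ∧ ∀ i, ¬ q ∣ N i

lemma Sup.one {ι : Type} (N : ι → ℕ) : Sup N 1 :=
  ⟨by
    have : {q : ℕ | (1 : Fam) q ≠ 1} = ∅ := by
      ext q; simp
    rw [this]
    exact Set.finite_empty, fun q hq => absurd rfl hq⟩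

lemma Sup.mul {ι : Type} {N : ι → ℕ} {c d : Fam} (hc : Sup N c) (hd : Sup N d) : Sup N (c * d) := by
  have key : ∀ q, (c * d) q ≠ 1 → c q ≠ 1 ∨ d q ≠ 1 := by
    intro q hq
    by_contra h
    push Not at h
    apply hq
    rw [mul_ap_left d h.1, h.2]
  exact ⟨(hc.fin.union hd.fin).subset fun q hq => key q hq, fun q hq => by
    rcases key q hq with h | h
    · exact hc.pr q h
    · exact hd.pr q h⟩

lemma Sup.inv {ι : Type} {N : ι → ℕ} {c : Fam} (hc : Sup N c) : Sup N c⁻¹ := by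
  have key : ∀ q, (c⁻¹ : Fam) q ≠ 1 → c q ≠ 1 := by
    intro q hq h
    exact hq (inv_ap_one h)
  exact ⟨hc.fin.subset fun q hq => key q hq, fun q hq => hc.pr q (key q hq)⟩

lemma Sup.pow {ι : Type} {N : ι → ℕ} {c : Fam} (hc : Sup N c) (j : ℕ) : Sup N (c ^ j) := by
  induction j with
  | zero => rw [pow_zero (M := Fam)]; exact Sup.one N
  | succ j ih => rw [pow_succ (M := Fam)]; exact ih.mul hc

lemma sp_mul {c d : Fam} (hc : {q | c q ≠ 1}.Finite) (hd : {q | d q ≠ 1}.Finite)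
    (hdis : ∀ q, d q ≠ 1 → c q = 1) : sp (c * d) = sp c ∪ sp d := by
  have key : ∀ q, (c * d) q ≠ 1 ↔ c q ≠ 1 ∨ d q ≠ 1 := by
    intro q
    by_cases h : d q = 1
    · rw [mul_ap_right c h]; tauto
    · rw [mul_ap_left d (hdis q h)]; tauto
  have hcd : {q | (c * d) q ≠ 1}.Finite := (hc.union hd).subset fun q hq => (key q).1 hq
  ext q
  rw [Finset.mem_union, mem_sp hcd, mem_sp hc, mem_sp hd, key]

/-- the sum with a fixed character of a family -/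
lemma bth_bt (f : ℚ → ℂ) {ψ c : Fam} (hψ : {q | ψ q ≠ 1}.Finite) (hc : {q | c q ≠ 1}.Finite)
    (hdis : ∀ q, c q ≠ 1 → ψ q = 1) :
    bth f (XX ψ (sp ψ) (dd (sp ψ))) c = bt f (ψ * c) := by
  classical
  have h1 := sp_mul hψ hc hdis
  have hd : Disjoint (sp ψ) (sp c) := by
    rw [Finset.disjoint_left]
    intro q hq hq'
    exact (mem_sp hψ q).1 hq (hdis q ((mem_sp hc q).1 hq'))
  have h2 : dd (sp (ψ * c)) = dd (sp ψ) * dd (sp c) := by
    rw [h1]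
    unfold dd
    rw [Finset.prod_union hd]
  by_cases h0 : dd (sp ψ) * dd (sp c) = 0
  · unfold bth bt
    rw [dif_neg (not_not.2 h0), dif_neg (not_not.2 (h2.trans h0))]
  · have hM : NeZero (dd (sp ψ) * dd (sp c)) := ⟨h0⟩
    rw [bth_eq f _ c _ rfl, bt_eq f (ψ * c) (dd (sp ψ) * dd (sp c)) h2.symm]
    unfold psh psc
    congr 1
    unfold XH
    have e1 : lh (XX ψ (sp ψ) (dd (sp ψ))) (dd (sp ψ) * dd (sp c)) =
        XX ψ (sp ψ) (dd (sp ψ) * dd (sp c)) := by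
      unfold lh
      rw [dif_pos (dvd_mul_right _ _), XX_comp ψ (dvd_mul_right _ _) fun q hq => dvd_dd hq]
    rw [e1, XX_mul, h1]
    congr 1
    · refine (XX_subset ψ Finset.subset_union_left (fun q _ hq => ?_) _).symm
      by_contra h3
      exact hq ((mem_sp hψ q).2 h3)
    · refine (XX_subset c Finset.subset_union_right (fun q _ hq => ?_) _).symm
      by_contra h3
      exact hq ((mem_sp hc q).2 h3)

lemma XX_pow_one {ψ : Fam} {e : ℕ} (h : ψ ^ e = 1) (T : Finset ℕ) (M : ℕ) (u : (ZMod M)ˣ) :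
    XX ψ T M u ^ e = 1 := XX_pow h T M u

/-! ### characters with given support -/

/-- the character of order `e` modulo the primes in `A` -/
def HA (e : ℕ) (A : Set ℕ) : Subgroup Fam where
  carrier := {c | c ^ e = 1 ∧ {q | c q ≠ 1}.Finite ∧ ∀ q, c q ≠ 1 → q ∈ A}
  one_mem' := ⟨one_pow (M := Fam) e, (Sup.one (fun _ : Unit => 1)).fin, fun q hq => absurd rfl hq⟩
  mul_mem' := by
    rintro c d ⟨h1, h2, h3⟩ ⟨h1', h2', h3'⟩
    have key : ∀ q, (c * d) q ≠ 1 → c q ≠ 1 ∨ d q ≠ 1 := by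
      intro q hq
      by_contra h
      push Not at h
      apply hq
      rw [mul_ap_left d h.1, h.2]
    refine ⟨?_, (h2.union h2').subset fun q hq => key q hq, fun q hq => ?_⟩
    · rw [mul_pow (M := Fam), h1, h1', mul_one (M := Fam)]
    · rcases key q hq with h | h
      · exact h3 q h
      · exact h3' q h
  inv_mem' := by
    rintro c ⟨h1, h2, h3⟩
    have key : ∀ q, (c⁻¹ : Fam) q ≠ 1 → c q ≠ 1 := by
      intro q hq h
      exact hq (inv_ap_one h)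
    refine ⟨?_, h2.subset fun q hq => key q hq, fun q hq => h3 q (key q hq)⟩
    rw [inv_pow (α := Fam), h1, inv_one (G := Fam)]

lemma mem_HA {e : ℕ} {A : Set ℕ} {c : Fam} :
    c ∈ HA e A ↔ c ^ e = 1 ∧ {q | c q ≠ 1}.Finite ∧ ∀ q, c q ≠ 1 → q ∈ A := Iff.rfl

lemma HA_ok (e : ℕ) {A B : Set ℕ} (h : A ⊆ B) : Ok (HA e A) e B :=
  ⟨fun _ hc => hc.1, fun _ hc => hc.2.1, fun _ hc q hq => h (hc.2.2 q hq)⟩

/-- a character of exact order `e` modulo a prime `q ≡ 1 mod e` -/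
lemma exists_char {q e : ℕ} (hq : q.Prime) (he : 0 < e) (h : q ≡ 1 [MOD e]) :
    ∃ χ : (ZMod q)ˣ →* ℂˣ, χ ^ e = 1 ∧ ∀ j, χ ^ j = 1 → e ∣ j := by
  have : Fact q.Prime := ⟨hq⟩
  have hcyc : IsCyclic (ZMod q)ˣ := inferInstance
  obtain ⟨g, hg⟩ := hcyc.exists_generator
  have hcard : Nat.card (ZMod q)ˣ = q - 1 := by
    rw [Nat.card_eq_fintype_card, ZMod.card_units_eq_totient, Nat.totient_prime hq]
  have hdvd : e ∣ q - 1 := (Nat.modEq_iff_dvd' hq.one_lt.le).1 h.symm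
  have hord : orderOf g = q - 1 := by
    rw [orderOf_eq_card_of_forall_mem_zpowers hg, hcard]
  -- a primitive root of unity
  set ζ : ℂ := Complex.exp (2 * Real.pi * Complex.I / e) with hζ
  have hprim : IsPrimitiveRoot ζ e := Complex.isPrimitiveRoot_exp e he.ne'
  obtain ⟨z, hz⟩ : ∃ z : ℂˣ, (z : ℂ) = ζ := ⟨Units.mk0 ζ (hprim.ne_zero he.ne'), rfl⟩
  have hzp : IsPrimitiveRoot z e := by
    rw [← IsPrimitiveRoot.coe_units_iff, hz]
    exact hprim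
  have hz1 : z ^ (Nat.card (ZMod q)ˣ) = 1 := by
    rw [hcard]
    obtain ⟨k, hk⟩ := hdvd
    rw [hk, pow_mul, hzp.pow_eq_one, one_pow]
  let χ : (ZMod q)ˣ →* ℂˣ := monoidHomOfForallMemZpowers hg (g' := z) (by
    rw [hord, ← hcard]
    exact orderOf_dvd_of_pow_eq_one hz1)
  have hχg : χ g = z := monoidHomOfForallMemZpowers_apply_gen hg _
  refine ⟨χ, ?_, fun j hj => ?_⟩
  · ext u
    obtain ⟨k, rfl⟩ := Subgroup.mem_zpowers_iff.1 (hg u)
    rw [MonoidHom.pow_apply, map_zpow, hχg, ← zpow_natCast, ← zpow_mul, mul_comm, zpow_mul,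
      zpow_natCast, hzp.pow_eq_one, one_zpow, MonoidHom.one_apply]
  · have h1 := DFunLike.congr_fun hj g
    rw [MonoidHom.pow_apply, hχg, MonoidHom.one_apply] at h1
    exact hzp.dvd_of_pow_eq_one j h1

open Classical in
/-- the family with one component -/
noncomputable def one1 (q : ℕ) (χ : (ZMod q)ˣ →* ℂˣ) : Fam := Function.update (1 : Fam) q χ

lemma one1_self (q : ℕ) (χ : (ZMod q)ˣ →* ℂˣ) : one1 q χ q = χ := by
  unfold one1
  rw [Function.update_self]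

lemma one1_ne {q p : ℕ} (χ : (ZMod q)ˣ →* ℂˣ) (h : p ≠ q) : one1 q χ p = 1 := by
  unfold one1
  rw [Function.update_of_ne h]
  rfl

lemma one1_mem {e : ℕ} {A : Set ℕ} {q : ℕ} (hq : q ∈ A) {χ : (ZMod q)ˣ →* ℂˣ} (h : χ ^ e = 1) :
    one1 q χ ∈ HA e A := by
  refine ⟨?_, ?_, ?_⟩
  · funext p
    ext x
    rw [fam_pow_ap]
    by_cases hp : p = q
    · subst hp
      rw [one1_self]
      have h1 := DFunLike.congr_fun h x
      rw [MonoidHom.pow_apply, MonoidHom.one_apply] at h1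
      rw [h1]
      rfl
    · rw [one1_ne χ hp, MonoidHom.one_apply, one_pow]
      rfl
  · refine (Set.finite_singleton q).subset fun p hp => ?_
    by_contra h1
    exact hp (one1_ne χ h1)
  · intro p hp
    by_contra h1
    apply hp
    refine one1_ne χ ?_
    rintro rfl
    exact h1 hq

/-! ### the step -/

/-- `lam` is a good prime ideal above `l` -/
structure GoodL {ι : Type} (a : ι → ℕ → ℂ) (l : ℕ) (lam : Ideal (integralClosure ℤ ℂ)) : Prop where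
  prime : lam.IsPrime
  mem : (l : integralClosure ℤ ℂ) ∈ lam
  inf : ∀ D : ℕ, 0 < D → {q : ℕ | q.Prime ∧ q ≡ 1 [MOD D] ∧
    ∀ i, ∀ x ∈ lam, (x : ℂ) ≠ a i q - 2}.Infinite

lemma not_dvd_of {q D k : ℕ} (hq : q.Prime) (h : q ≡ 1 [MOD D]) (hk : k ∣ D) : ¬ q ∣ k := by
  intro h1
  have h2 : q ≡ 1 [MOD q] := h.of_dvd (h1.trans hk)
  have h3 : 1 ≡ 0 [MOD q] := h2.symm.trans (by
    rw [Nat.modEq_zero_iff_dvd])
  exact hq.one_lt.ne' (Nat.dvd_one.1 ((Nat.modEq_zero_iff_dvd).1 h3))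

lemma hv_one {m : ℕ} (h : (ZMod m)ˣ →* ℂˣ) {q : ℕ} (hq : q ≡ 1 [MOD m]) : hv h q = 1 := by
  unfold hv
  split_ifs with h1
  · have h2 : ZMod.unitOfCoprime q h1 = 1 := by
      apply Units.ext
      rw [ZMod.coe_unitOfCoprime, Units.val_one, ← Nat.cast_one, ZMod.natCast_eq_natCast_iff]
      exact hq
    rw [h2, map_one]
  · rfl

section step
variable {ι : Type} [Fintype ι] {N κ : ι → ℕ} {f : ι → ℚ → ℂ} {a : ι → ℕ → ℂ}

lemma HA_mono {e : ℕ} {A A' : Set ℕ} (h : A ⊆ A') : HA e A ≤ HA e A' := fun _ hc =>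
  ⟨hc.1, hc.2.1, fun q hq => h (hc.2.2 q hq)⟩

/-- the even characters in `H` with value `1` at the primes in `B` -/
theorem split_sub {e : ℕ} (he : 0 < e) {A : Set ℕ} (B : Finset ℕ) (hB : ∀ b ∈ B, b.Prime)
    (hA : ∀ q ∈ A, ∀ b ∈ B, b.Coprime q) :
    ∃ H' : Subgroup Fam, (∀ c ∈ H', c ∈ HA e A ∧ par c = 1 ∧ ∀ b ∈ B, cvl c b = 1) ∧
      ∃ R : Finset Fam, (∀ r ∈ R, r ∈ HA e A) ∧ ∀ c ∈ HA e A, ∃ r ∈ R, c * r ∈ H' := by
  classical
  have h0 : (0 : ℕ) ∉ B := fun h => Nat.not_prime_zero (hB 0 h)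
  obtain ⟨H', h1, R, h2, h3, h4⟩ := reps (G := Fam) (insert 0 B) chv he (HA e A)
    (by
      intro p hp c hc c' hc'
      unfold chv
      by_cases hp0 : p = 0
      · rw [if_pos hp0, if_pos hp0, if_pos hp0]
        exact par_mul hc.2.1 hc'.2.1
      · rw [if_neg hp0, if_neg hp0, if_neg hp0]
        have hp' : p ∈ B := (Finset.mem_insert.1 hp).resolve_left hp0
        refine cvl_mul' hc.2.1 hc'.2.1 fun q hq => ?_
        rcases hq with h | h
        · exact hA q (hc.2.2 q h) p hp'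
        · exact hA q (hc'.2.2 q h) p hp')
    (by
      intro p hp c hc
      unfold chv
      by_cases hp0 : p = 0
      · rw [if_pos hp0]
        exact par_pow hc.1
      · rw [if_neg hp0]
        have hp' : p ∈ B := (Finset.mem_insert.1 hp).resolve_left hp0
        exact cvl_pow' hc.2.1 hc.1 fun q hq => hA q (hc.2.2 q hq) p hp')
  refine ⟨H', fun c hc => ⟨((h1 c).1 hc).1, ?_, fun b hb => ?_⟩, R, h3, h4⟩
  · have h5 := ((h1 c).1 hc).2 0 (Finset.mem_insert_self _ _)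
    unfold chv at h5
    rwa [if_pos rfl] at h5
  · have h5 := ((h1 c).1 hc).2 b (Finset.mem_insert_of_mem hb)
    unfold chv at h5
    rwa [if_neg (fun h : b = 0 => h0 (by rw [← h]; exact hb))] at h5

/-- **One more character of order `l ^ n`.** -/
theorem step (hN : ∀ i, N i ≠ 0) (hms : ∀ i, MK (N i) (κ i) (f i) (a i)) {l : ℕ} (hl : l.Prime)
    (n : ℕ) {lam : Ideal (integralClosure ℤ ℂ)} (hg : GoodL a l lam) (B : Finset ℕ)
    (hB : ∀ b ∈ B, b.Prime) (F : Subgroup Fam)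
    (hF : (F : Set Fam).Finite) (hFs : ∀ c ∈ F, Sup N c) (hFn : ∀ c ∈ F, ∀ i, bt (f i) c ≠ 0) :
    ∃ c : Fam, c ^ (l ^ n) = 1 ∧ (∀ j, c ^ j = 1 → l ^ n ∣ j) ∧ Sup N c ∧
      (∀ ψ ∈ F, ∀ q, c q ≠ 1 → ψ q = 1) ∧ (par c = 1 ∧ ∀ b ∈ B, cvl c b = 1) ∧
      ∀ ψ ∈ F, ∀ j : ℕ, ∀ i, bt (f i) (ψ * c ^ j) ≠ 0 := by
  classical
  have hFf : Finite F := hF.to_subtype
  have : Fintype F := Fintype.ofFinite F
  have hdd : ∀ ψ ∈ F, dd (sp ψ) ≠ 0 := fun ψ hψ => dd_ne_zero fun q hq =>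
    ((hFs ψ hψ).pr q ((mem_sp (hFs ψ hψ).fin q).1 hq)).1
  have hddN : ∀ ψ ∈ F, ∀ i, (dd (sp ψ)).Coprime (N i) := fun ψ hψ i => by
    unfold dd
    refine Nat.Coprime.prod_left fun q hq => ?_
    obtain ⟨h1, h2⟩ := (hFs ψ hψ).pr q ((mem_sp (hFs ψ hψ).fin q).1 hq)
    exact (Nat.Prime.coprime_iff_not_dvd h1).2 (h2 i)
  set D : ℕ := (∏ b ∈ B, b) * (l * l ^ n * ((∏ ψ : F, dd (sp (ψ : Fam))) * ∏ i, N i)) with hD
  have hD0 : 0 < D := by
    refine Nat.pos_of_ne_zero (mul_ne_zero (Finset.prod_ne_zero_iff.2 fun b hb => (hB b hb).ne_zero)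
      (mul_ne_zero (mul_ne_zero hl.ne_zero (pow_ne_zero _ hl.ne_zero))
      (mul_ne_zero (Finset.prod_ne_zero_iff.2 fun ψ _ => hdd _ ψ.2)
        (Finset.prod_ne_zero_iff.2 fun i _ => hN i))))
  have hDb : ∀ b ∈ B, b ∣ D := fun b hb => (Finset.dvd_prod_of_mem _ hb).trans (dvd_mul_right _ _)
  have hDl : l ∣ D := ((dvd_mul_right _ _).trans (dvd_mul_right _ _)).trans (dvd_mul_left _ _)
  have hDln : l ^ n ∣ D := ((dvd_mul_left _ _).trans (dvd_mul_right _ _)).trans (dvd_mul_left _ _)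
  have hDψ : ∀ ψ ∈ F, dd (sp ψ) ∣ D := fun ψ hψ =>
    (((Finset.dvd_prod_of_mem (fun ψ : F => dd (sp (ψ : Fam))) (Finset.mem_univ ⟨ψ, hψ⟩)).trans
      (dvd_mul_right _ _)).trans (dvd_mul_left _ _)).trans (dvd_mul_left _ _)
  have hDN : ∀ i, N i ∣ D := fun i =>
    (((Finset.dvd_prod_of_mem N (Finset.mem_univ i)).trans (dvd_mul_left _ _)).trans
      (dvd_mul_left _ _)).trans (dvd_mul_left _ _)
  set A0 : Set ℕ := {q : ℕ | q.Prime ∧ q ≡ 1 [MOD D] ∧ ∀ i, ∀ x ∈ lam, (x : ℂ) ≠ a i q - 2} with hA0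
  have hinf := hg.inf D hD0
  let h : (x : ι × F) → (ZMod (dd (sp (x.2 : Fam))))ˣ →* ℂˣ := fun x =>
    XX (x.2 : Fam) (sp (x.2 : Fam)) (dd (sp (x.2 : Fam)))
  have hE : ∀ x u, h x u ^ (Nat.card F) = 1 := by
    intro x u
    refine XX_pow ?_ _ _ _
    have h1 : (x.2 : F) ^ Nat.card F = 1 := pow_card_eq_one'
    have h2 := congrArg (Subtype.val) h1
    exact h2
  have hAd : A0 ⊆ AdK l (fun x : ι × F => N x.1) (fun x => a x.1)
      (fun x => dd (sp (x.2 : Fam))) h lam := by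
    rintro q ⟨hq, hqD, hqa⟩
    refine ⟨hq, hqD.of_dvd hDl, fun x => ⟨not_dvd_of hq hqD (hDN x.1),
      (Nat.Prime.coprime_iff_not_dvd hq).2 (not_dvd_of hq hqD (hDψ _ x.2.2)), fun y hy hyx => ?_⟩⟩
    have h1 : hv (h x) q = 1 := hv_one _ (hqD.of_dvd (hDψ _ x.2.2))
    rw [h1, inv_one, Units.val_one] at hyx
    refine hqa x.1 y hy ?_
    rw [hyx]
    ring
  have hdis : ∀ ψ ∈ F, ∀ q ∈ A0, ψ q = 1 := by
    intro ψ hψ q hq
    by_contra h1
    have h2 : q ∣ dd (sp ψ) := dvd_dd ((mem_sp (hFs ψ hψ).fin q).2 h1)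
    exact not_dvd_of hq.1 hq.2.1 (hDψ ψ hψ) h2
  obtain ⟨H', hH', Rp, hRp, hRp2⟩ := split_sub (pow_pos hl.pos n) (A := A0) B hB
    (fun q hq b hb => ((Nat.Prime.coprime_iff_not_dvd hq.1).2
      (not_dvd_of hq.1 hq.2.1 (hDb b hb))).symm)
  have hbase : ∀ c ∈ (⊥ : Subgroup Fam), ∀ x : ι × F, bth (f x.1) (h x) c ≠ 0 := by
    intro c hc x
    rw [Subgroup.mem_bot] at hc
    rw [hc, bth_bt (f x.1) (hFs _ x.2.2).fin (Sup.one N).fin (fun q hq => absurd rfl hq),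
      mul_one (M := Fam)]
    exact hFn _ x.2.2 _
  obtain ⟨K, hK1, hK2⟩ := extK (ι := ι × F) (N := fun x => N x.1) (κ := fun x => κ x.1)
    (f := fun x => f x.1) (a := fun x => a x.1) (m := fun x => dd (sp (x.2 : Fam))) (h := h)
    (fun x => hms x.1) (fun x => hdd _ x.2.2) (fun x => hddN _ x.2.2 _) hl n (Nat.card F)
    Nat.card_pos hE lam hg.prime hg.mem H'
    ⟨fun c hc => (hH' c hc).1.1, fun c hc => (hH' c hc).1.2.1,
      fun c hc q hq => hAd ((hH' c hc).1.2.2 q hq)⟩ ⊥ (by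
      rw [Subgroup.coe_bot]
      exact Set.finite_singleton _) bot_le hbase
  -- a new prime
  have hbad : (⋃ k ∈ K ∪ Rp, {q | k q ≠ 1}).Finite :=
    Set.Finite.biUnion (Finset.finite_toSet (K ∪ Rp)) fun k hk => by
      rcases Finset.mem_union.1 (Finset.mem_coe.1 hk) with h1 | h1
      · exact (hH' k (hK1 k h1)).1.2.1
      · exact (hRp k h1).2.1
  obtain ⟨q0, hq0, hq0K⟩ := hinf.exists_notMem_finite hbad
  have hq0K' : ∀ k ∈ K ∪ Rp, k q0 = 1 := by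
    intro k hk
    by_contra h1
    apply hq0K
    simp only [Set.mem_iUnion]
    exact ⟨k, hk, h1⟩
  obtain ⟨χ, hχ1, hχ2⟩ := exists_char hq0.1 (pow_pos hl.pos n) (hq0.2.1.of_dvd hDln)
  have hc0 : one1 q0 χ ∈ HA (l ^ n) A0 := one1_mem (show q0 ∈ A0 from hq0) hχ1
  obtain ⟨r, hr, hr1⟩ := hRp2 _ hc0
  obtain ⟨k, hk, h1⟩ := hK2 _ hr1
  have hcm' : one1 q0 χ * r * k ∈ H' := H'.mul_mem hr1 (hK1 k hk)
  obtain ⟨hcm, hpar, hval⟩ := hH' _ hcm'
  have hcS : Sup N (one1 q0 χ * r * k) := ⟨hcm.2.1, fun q hq => by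
    have h2 := hcm.2.2 q hq
    exact ⟨h2.1, fun i => not_dvd_of h2.1 h2.2.1 (hDN i)⟩⟩
  refine ⟨one1 q0 χ * r * k, hcm.1, fun j hj => hχ2 j ?_, hcS,
    fun ψ hψ q hq => hdis ψ hψ q (hcm.2.2 q hq), ⟨hpar, hval⟩, fun ψ hψ j i => ?_⟩
  · ext x
    have h2 := DFunLike.congr_fun (congrFun hj q0) x
    rw [fam_pow_ap, mul_ap_right _ (hq0K' k (Finset.mem_union_left _ hk)),
      mul_ap_right _ (hq0K' r (Finset.mem_union_right _ hr)), one1_self] at h2
    rw [MonoidHom.pow_apply, h2]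
    rfl
  · have h2 := h1 1 (Subgroup.one_mem _) j (i, ⟨ψ, hψ⟩)
    rw [one_mul (M := Fam)] at h2
    have hj : (one1 q0 χ * r * k) ^ j ∈ HA (l ^ n) A0 := (HA (l ^ n) A0).pow_mem hcm j
    rw [← bth_bt (f i) (hFs ψ hψ).fin (hcS.pow j).fin (fun q hq => hdis ψ hψ q (hj.2.2 q hq))]
    exact h2

end step

end Pool.Agent.K4H13.HW
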