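import Pool.Agent.K4H55.AB.Den
import Pool.Agent.K4H13.HW.Seq

/-!
# Project HW: primes congruent to one modulo which elliptic curves have an odd number of points
-/

set_option autoImplicit false

open NumberField IsDedekindDomain Filter Topology

namespace Pool.Agent.K4H13.HW

open Pool.Agent.W569.FM Pool.Agent.Y142 Pool.Agent.W401.Cheb Pool.Agent.K4H55.AB
open Pool.Agent.W263.BSD (GoodPrime pointCount)
open Pool.Agent

/-- infinitely many primes in a Frobenius class -/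
lemma X0_inf (U : Subgroup (GF ℚ)) [U.Normal] (hU : IsOpen (U : Set (GF ℚ))) (g : GF ℚ) :
    (X0 U g).Infinite := by
  intro hfin
  obtain ⟨d, hd, h1⟩ := density_lower U hU g
  have h2 := remove hd h1 hfin
  have h3 : X0 U g \ X0 U g = ∅ := Set.diff_self
  rw [h3] at h2
  obtain ⟨n, hn, hn2⟩ := (h2.and (eventually_ge_atTop 2)).exists
  have h4 : Cnt.cA (∅ : Set ℕ) n = 0 := by
    unfold Cnt.cA
    simp
  rw [h4] at hn
  have h5 : 0 < Real.log n := Real.log_pos (by exact_mod_cast (by omega : 1 < n))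
  have h6 : (0 : ℝ) < n := by exact_mod_cast (by omega : 0 < n)
  have h7 : 0 < d / 2 * (n / Real.log n) := by positivity
  push_cast at hn
  linarith

/-- a Frobenius element which fixes the roots of unity of order `D` -/
lemma modEq_of_frob {q D : ℕ} (hq : q.Prime) (hqD : ¬ q ∣ D) {P : Ideal (OO ℚ)}
    (hP : P.IsMaximal) (hqP : (q : OO ℚ) ∈ P) {σ : GF ℚ} (hσ : FrobAt q P σ)
    {ζ : AlgebraicClosure ℚ} (hζ : IsPrimitiveRoot ζ D) (hD : 0 < D) (hfix : σ ζ = ζ) :
    q ≡ 1 [MOD D] := by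
  have hint : IsIntegral ℤ ζ := hζ.isIntegral hD
  let z : OO ℚ := ⟨ζ, hint⟩
  have hz : z ^ D = 1 := RingOfIntegers.ext hζ.pow_eq_one
  have hσz : σ • z = z := RingOfIntegers.ext hfix
  have h1 := hσ z
  rw [hσz] at h1
  -- `ζ = ζ ^ q`
  have h2 : z ^ (q - 1) = 1 := by
    by_contra hne
    set w := z ^ (q - 1) with hw
    have h3 : z - z ^ q = z * (1 - w) := by
      rw [hw, mul_sub, mul_one, ← pow_succ', Nat.sub_add_cancel hq.one_lt.le]
    have hzu : IsUnit z := IsUnit.of_pow_eq_one hz hD.ne'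
    rw [h3] at h1
    have h4 : 1 - w ∈ P := (Ideal.unit_mul_mem_iff_mem P hzu).1 h1
    have hwD : w ^ D = 1 := by rw [hw, ← pow_mul, mul_comm, pow_mul, hz, one_pow]
    have h5 : ∑ i ∈ Finset.range D, w ^ i = 0 := by
      have h6 := mul_neg_geom_sum w D
      rw [hwD, sub_self] at h6
      rcases mul_eq_zero.1 h6 with h7 | h7
      · exact absurd (sub_eq_zero.1 h7).symm hne
      · exact h7
    have h6 : (D : OO ℚ) ∈ P := by
      have h7 : (D : OO ℚ) = ∑ i ∈ Finset.range D, (1 - w ^ i) := by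
        rw [Finset.sum_sub_distrib, h5]
        simp
      rw [h7]
      refine P.sum_mem fun i _ => P.mem_of_dvd ?_ h4
      have := sub_dvd_pow_sub_pow (1 : OO ℚ) w i
      rwa [one_pow] at this
    have h7 := int_mem (m := (D : ℤ)) hq hP hqP (by exact_mod_cast h6)
    exact hqD (by exact_mod_cast h7)
  have h3 : ζ ^ (q - 1) = 1 := congrArg (fun y : OO ℚ => (y : AlgebraicClosure ℚ)) h2
  exact ((Nat.modEq_iff_dvd' hq.one_lt.le).2 (hζ.dvd_of_pow_eq_one _ h3)).symm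

/-- the cubic has no root modulo `q` -/
theorem no_root' {a b : ℤ} {q : ℕ} (hq : q.Prime)
    {P : Ideal (OO ℚ)} (hP : P.IsMaximal) (hqP : (q : OO ℚ) ∈ P) {g : GF ℚ} (hg : FrobAt q P g)
    (hΔ : ¬ (q : ℤ) ∣ 2 * (4 * a ^ 3 + 27 * b ^ 2))
    (hmove : ∀ t : AlgebraicClosure ℚ, Rt a b t → g t ≠ t) (X : ℤ) :
    ¬ (q : ℤ) ∣ X ^ 3 + a * X + b := by
  intro hX
  have hX' : ((X ^ 3 + a * X + b : ℤ) : OO ℚ) ∈ P := by
    obtain ⟨k, hk⟩ := hX
    rw [hk]
    push_cast
    exact P.mul_mem_right _ hqP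
  set x : OO ℚ := (X : OO ℚ) with hx
  have e1 : ((X ^ 3 + a * X + b : ℤ) : OO ℚ) = x ^ 3 + (a : OO ℚ) * x + (b : OO ℚ) := by
    rw [hx]; push_cast; ring
  rw [e1] at hX'
  have hfix : g • x = x := by
    rw [hx]
    exact map_intCast (MulSemiringAction.toRingHom (GF ℚ) (OO ℚ) g) X
  obtain ⟨t1, t2, t3, h1, h2, h3, hsp⟩ := exists_split a b (AlgebraicClosure ℚ)
  let T : (t : AlgebraicClosure ℚ) → Rt a b t → OO ℚ := fun t ht => ⟨t, rt_integral ht⟩
  have hfac : x ^ 3 + (a : OO ℚ) * x + (b : OO ℚ) = (x - T t1 h1) * (x - T t2 h2) * (x - T t3 h3) := by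
    apply RingOfIntegers.ext
    have := hsp (x : AlgebraicClosure ℚ)
    simp only [map_add, map_mul, map_pow, map_intCast, map_sub]
    exact this
  rw [hfac] at hX'
  have hxT : ∃ (t : AlgebraicClosure ℚ) (ht : Rt a b t), x - T t ht ∈ P := by
    rcases hP.isPrime.mem_or_mem hX' with h | h
    · rcases hP.isPrime.mem_or_mem h with h | h
      · exact ⟨t1, h1, h⟩
      · exact ⟨t2, h2, h⟩
    · exact ⟨t3, h3, h⟩
  obtain ⟨t, ht, hxt⟩ := hxT
  have hgt : Rt a b (g t) := by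
    have := congrArg g ht
    simp only [map_add, map_mul, map_pow, map_intCast, map_zero] at this
    exact this
  have h4 : T t ht ^ q - x ^ q ∈ P := by
    have := P.neg_mem hxt
    rw [neg_sub] at this
    exact P.mem_of_dvd (sub_dvd_pow_sub_pow _ _ _) this
  have h5 := hg x
  rw [hfix] at h5
  have h6 := hg (T t ht)
  have h7 : g • T t ht - T t ht ∈ P := by
    have h8 : g • T t ht - T t ht = (g • T t ht - T t ht ^ q) +
        (T t ht ^ q - x ^ q) - (x - x ^ q) + (x - T t ht) := by ring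
    rw [h8]
    exact P.add_mem (P.sub_mem (P.add_mem h6 h4) h5) hxt
  have hG : Rt a b (g • T t ht : OO ℚ) := by
    apply RingOfIntegers.ext
    simp only [map_add, map_mul, map_pow, map_intCast, map_zero]
    exact hgt
  have hT : Rt a b (T t ht : OO ℚ) := by
    apply RingOfIntegers.ext
    simp only [map_add, map_mul, map_pow, map_intCast, map_zero]
    exact ht
  have hne : (g • T t ht : OO ℚ) ≠ T t ht := by
    intro h
    exact hmove t ht (congrArg (fun y : OO ℚ => (y : AlgebraicClosure ℚ)) h)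
  apply hΔ
  apply int_mem hq hP hqP
  rw [rt_disc hG hT hne]
  exact P.mul_mem_right _ h7

/-- the number of points is odd -/
theorem odd_of_no_root {a b : ℤ} {q : ℕ} (hq : q.Prime) (hq2 : q ≠ 2)
    (h : ∀ X : ℤ, ¬ (q : ℤ) ∣ X ^ 3 + a * X + b) : ¬ 2 ∣ pointCount a b q + 1 := by
  classical
  have : Fact q.Prime := ⟨hq⟩
  have : Fact (Nat.Prime 2) := ⟨Nat.prime_two⟩
  let α : Type := {x : ZMod q × ZMod q // x.2 ^ 2 = x.1 ^ 3 + (a : ZMod q) * x.1 + (b : ZMod q)}
  have : Fintype α := Fintype.ofFinite _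
  let f : Function.End α := fun x => ⟨(x.1.1, -x.1.2), by
    have := x.2
    simp only at this ⊢
    rw [neg_sq, this]⟩
  have hf : f ^ 2 ^ 1 = 1 := by
    rw [pow_one, pow_two]
    funext x
    apply Subtype.ext
    show (x.1.1, - -x.1.2) = x.1
    rw [neg_neg]
  have h1 := Equiv.Perm.card_fixedPoints_modEq hf
  have h2 : Fintype.card f.fixedPoints = 0 := by
    rw [Fintype.card_eq_zero_iff]
    refine ⟨fun x => ?_⟩
    have h3 : f x.1 = x.1 := x.2
    have h4 : -x.1.1.2 = x.1.1.2 := congrArg (fun y : α => y.1.2) h3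
    have h5 : (2 : ZMod q) ≠ 0 := by
      intro h6
      have h7 : ((2 : ℕ) : ZMod q) = 0 := by exact_mod_cast h6
      rw [ZMod.natCast_eq_zero_iff] at h7
      exact hq2 ((Nat.prime_dvd_prime_iff_eq hq Nat.prime_two).1 h7)
    have h6 : x.1.1.2 = 0 := by
      have h7 : (2 : ZMod q) * x.1.1.2 = 0 := by linear_combination -h4
      exact (mul_eq_zero.1 h7).resolve_left h5
    have h7 := x.1.2
    rw [h6] at h7
    apply h ((x.1.1.1).val : ℤ)
    rw [← ZMod.intCast_zmod_eq_zero_iff_dvd]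
    push_cast
    rw [ZMod.natCast_zmod_val, ← h7]
    ring
  rw [h2] at h1
  have h3 : 2 ∣ Fintype.card α := (Nat.modEq_zero_iff_dvd).1 h1
  have h4 : pointCount a b q = Fintype.card α := Nat.card_eq_fintype_card
  rw [h4]
  omega

section
variable {ι : Type} [Finite ι] (a b : ι → ℤ)

/-- **Primes `q ≡ 1 mod D` such that all the curves have an odd number of points modulo `q`.** -/
theorem odd_primes (hΔ : ∀ i, 4 * a i ^ 3 + 27 * b i ^ 2 ≠ 0) (g : GF ℚ)
    (hroots : ∀ (ζ : AlgebraicClosure ℚ) (n : ℕ), 0 < n → ζ ^ n = 1 → g ζ = ζ)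
    (hg : ∀ i, ∀ t : AlgebraicClosure ℚ, Rt (a i) (b i) t → g t ≠ t) {D : ℕ} (hD : 0 < D) :
    {q : ℕ | q.Prime ∧ q ≡ 1 [MOD D] ∧ q ≠ 2 ∧ ∀ i, GoodPrime (a i) (b i) q ∧
      ¬ 2 ∣ pointCount (a i) (b i) q + 1}.Infinite := by
  classical
  obtain ⟨ζ, hζ⟩ : ∃ ζ : AlgebraicClosure ℚ, IsPrimitiveRoot ζ D := by
    have : NeZero ((D : ℕ) : AlgebraicClosure ℚ) := ⟨by exact_mod_cast hD.ne'⟩
    exact HasEnoughRootsOfUnity.exists_primitiveRoot (AlgebraicClosure ℚ) D
  let S : Set (AlgebraicClosure ℚ) := {t | t = ζ ∨ ∃ i, Rt (a i) (b i) t}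
  have hS : S.Finite := by
    choose t1 t2 t3 h1 h2 h3 hsp using fun i => exists_split (a i) (b i) (AlgebraicClosure ℚ)
    refine ((Set.finite_singleton ζ).union ((Set.finite_range t1).union ((Set.finite_range t2).union
      (Set.finite_range t3)))).subset ?_
    rintro t (rfl | ⟨i, ht⟩)
    · exact Or.inl rfl
    unfold Rt at ht
    rw [hsp] at ht
    rcases mul_eq_zero.1 ht with h4 | h4
    · rcases mul_eq_zero.1 h4 with h4 | h4
      · exact Or.inr (Or.inl ⟨i, (sub_eq_zero.1 h4).symm⟩)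
      · exact Or.inr (Or.inr (Or.inl ⟨i, (sub_eq_zero.1 h4).symm⟩))
    · exact Or.inr (Or.inr (Or.inr ⟨i, (sub_eq_zero.1 h4).symm⟩))
  have hSf : Finite S := hS.to_subtype
  let E : IntermediateField ℚ (AlgebraicClosure ℚ) := IntermediateField.adjoin ℚ S
  have hE : FiniteDimensional ℚ E := IntermediateField.finiteDimensional_adjoin fun t _ =>
    ((AlgebraicClosure.isAlgebraic ℚ).isAlgebraic t).isIntegral
  let W : Subgroup (GF ℚ) := E.fixingSubgroup
  have hW : IsOpen (W : Set (GF ℚ)) := E.fixingSubgroup_isOpen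
  have hWf : Finite (GF ℚ ⧸ W) := Subgroup.quotient_finite_of_isOpen W hW
  have hWi : W.FiniteIndex := Subgroup.finiteIndex_of_finite_quotient
  have hWc : IsClosed (W : Set (GF ℚ)) := W.isClosed_of_isOpen hW
  have hU : IsOpen (W.normalCore : Set (GF ℚ)) :=
    Subgroup.isOpen_of_isClosed_of_finiteIndex _ (W.normalCore_isClosed hWc)
  have h1 := X0_inf W.normalCore hU g
  -- the finite set of the bad primes
  let B0 : Set ℕ := {2} ∪ {q | q ∣ D} ∪ ⋃ i, {q | (q : ℤ) ∣ 2 * (4 * a i ^ 3 + 27 * b i ^ 2)}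
  have hB0 : B0.Finite := by
    refine ((Set.finite_singleton 2).union ?_).union (Set.finite_iUnion fun i => ?_)
    · exact (Set.finite_Iic D).subset fun q hq => Nat.le_of_dvd hD hq
    · refine Set.Finite.subset (Set.finite_Iic
        ((2 * (4 * a i ^ 3 + 27 * b i ^ 2)).natAbs)) ?_
      intro q h
      exact Nat.le_of_dvd (Int.natAbs_pos.2 (mul_ne_zero two_ne_zero (hΔ i)))
        (Int.natCast_dvd.1 h)
  refine (h1.diff hB0).mono ?_
  rintro q ⟨⟨hq, P, σ, hP, hqP, hσ, hu⟩, hqB⟩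
  have hB1 : (q ≠ 2 ∧ ¬ q ∣ D) ∧ ∀ i, ¬ (q : ℤ) ∣ 2 * (4 * a i ^ 3 + 27 * b i ^ 2) := by
    simp only [B0, Set.mem_union, Set.mem_singleton_iff, Set.mem_iUnion, not_or, not_exists] at hqB
    exact ⟨⟨hqB.1.1, hqB.1.2⟩, hqB.2⟩
  have hact : ∀ t ∈ S, σ t = g t := by
    intro t ht
    have h4 : g⁻¹ * σ ∈ W := W.normalCore_le hu
    have h5 : (g⁻¹ * σ) t = t := by
      have h6 := (IntermediateField.mem_fixingSubgroup_iff E (g⁻¹ * σ)).1 h4
      exact h6 t (IntermediateField.subset_adjoin ℚ S ht)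
    have h7 : g ((g⁻¹ * σ) t) = σ t := by
      show (g * (g⁻¹ * σ)) t = σ t
      rw [mul_inv_cancel_left]
    rw [← h7, h5]
  refine ⟨hq, ?_, hB1.1.1, fun i => ⟨⟨hq, fun h => hB1.2 i ?_⟩, ?_⟩⟩
  · refine modEq_of_frob hq hB1.1.2 hP hqP hσ hζ hD ?_
    rw [hact ζ (Or.inl rfl)]
    exact hroots ζ D hD hζ.pow_eq_one
  · have e : 2 * (-4 * a i ^ 3 - 27 * b i ^ 2) = -(2 * (4 * a i ^ 3 + 27 * b i ^ 2)) := by ring
    rw [e] at h
    exact (Int.dvd_neg).1 h
  · refine odd_of_no_root hq hB1.1.1 fun X => no_root' hq hP hqP hσ (hB1.2 i) (fun t ht => ?_) X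
    rw [hact t (Or.inr ⟨i, ht⟩)]
    exact hg i t ht

end

end Pool.Agent.K4H13.HW
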