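import Pool.Agent.K4H15.GM.Lf
import Pool.Agent.K4H15.GM.Form
import Pool.Agent.K4H13.HW.Sym
import Pool.Agent.K4H13.HW.Corr

/-!
# Project HW: newforms of even weight, the twisted `L`-functions and their Euler products
-/

set_option autoImplicit false

open Complex Filter Topology Set UpperHalfPlane MatrixGroups CongruenceSubgroup ZMod

namespace Pool.Agent.K4H13.HW

open Pool.Agent.K4H15.GM Pool.Agent.Y18.LP Pool.Agent.K4H55.AB
open Pool.Agent.Y18.BSD (dd_ne_zero dd_insert dd_coprime FF hs_congr)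

/-! ### the local factors -/

lemma local_sum {u : ℕ → ℂ} (hu : Summable u) {A B : ℂ} (h0 : u 0 = 1) (h1 : u 1 = A)
    (h2 : ∀ n, u (n + 2) = A * u (n + 1) - B * u n) : ∑' n, u n = (1 - A + B)⁻¹ := by
  have e1 : ∑' n, u n = u 0 + ∑' n, u (n + 1) := hu.tsum_eq_zero_add
  have hu1 : Summable fun n => u (n + 1) := (summable_nat_add_iff 1).2 hu
  have e2 : ∑' n, u (n + 1) = u 1 + ∑' n, u (n + 2) := hu1.tsum_eq_zero_add
  have e3 : ∑' n, u (n + 2) = A * ∑' n, u (n + 1) - B * ∑' n, u n := by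
    simp only [h2]
    rw [Summable.tsum_sub (hu1.mul_left A) (hu.mul_left B), tsum_mul_left, tsum_mul_left]
  have e4 : (∑' n, u n) * (1 - A + B) = 1 := by
    rw [e3] at e2
    rw [h0] at e1
    rw [h1] at e2
    linear_combination e1 + e2 - A * e1
  exact eq_inv_of_mul_eq_one_left e4

/-- the Euler factor of the twist -/
noncomputable def ezk (N m : ℕ) (s : ℕ → ℂ) (z w : ℂ) (p : ℕ) : ℂ :=
  (1 - s p * z * (p : ℂ) ^ (-w) + (if p ∣ N then 0 else (p : ℂ) ^ (2 * m - 1)) * z ^ 2 *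
    ((p : ℂ) ^ (-w)) ^ 2)⁻¹

/-- **The Euler product of a twist.** -/
theorem euler {N m : ℕ} {s : ℕ → ℂ} (hgr : Gr s) (hf : HR N m s) (g : ℕ → ℂ) (hg1 : g 1 = 1)
    (hgm : ∀ a b : ℕ, g (a * b) = g a * g b) {w : ℂ}
    (hs : Summable fun n : ℕ => ‖g n * s n * (n : ℂ) ^ (-w)‖) :
    HasProd (fun p : Nat.Primes => ezk N m s (g p) w p) (∑' n : ℕ, g n * s n * (n : ℂ) ^ (-w)) := by
  set F : ℕ → ℂ := fun n => g n * s n * (n : ℂ) ^ (-w) with hF
  have hF1 : F 1 = 1 := by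
    simp [hF, hg1, hf.one]
  have hF0 : F 0 = 0 := by
    simp [hF, hgr.zero]
  have hFm : ∀ {a b : ℕ}, Nat.Coprime a b → F (a * b) = F a * F b := by
    intro a b hab
    simp only [hF]
    rw [hgm, hf.mul a b hab, Nat.cast_mul, Complex.natCast_mul_natCast_cpow]
    ring
  have h1 := EulerProduct.eulerProduct_hasProd (f := F) hF1 hFm hs hF0
  refine (congrArg (fun g => HasProd g _) (funext fun p : Nat.Primes => ?_)).mp h1
  have hp : (p : ℕ).Prime := p.2
  have hp0 : ((p : ℕ) : ℂ) ≠ 0 := by exact_mod_cast hp.ne_zero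
  have hpw : ∀ n : ℕ, (((p : ℕ) ^ n : ℕ) : ℂ) ^ (-w) = (((p : ℕ) : ℂ) ^ (-w)) ^ n := by
    intro n
    rw [Nat.cast_pow, ← Complex.natCast_cpow_natCast_mul]
    rw [← Complex.cpow_nat_mul]
  have hgp : ∀ n : ℕ, g ((p : ℕ) ^ n) = g p ^ n := by
    intro n
    induction n with
    | zero => rw [pow_zero, pow_zero, hg1]
    | succ n ih => rw [pow_succ, hgm, ih, pow_succ]
  have hsum : Summable fun e : ℕ => F ((p : ℕ) ^ e) :=
    hs.of_norm.comp_injective (Nat.pow_right_injective hp.two_le)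
  have h2 := local_sum hsum (A := s p * g p * ((p : ℕ) : ℂ) ^ (-w))
    (B := (if (p : ℕ) ∣ N then 0 else ((p : ℕ) : ℂ) ^ (2 * m - 1)) * g p ^ 2 *
      (((p : ℕ) : ℂ) ^ (-w)) ^ 2) (by rw [pow_zero, hF1]) (by
      rw [pow_one]
      simp only [hF]
      ring) (fun n => by
      simp only [hF]
      rw [hgp, hgp, hgp, hpw, hpw, hpw, hf.pow p n hp]
      split_ifs
      · ring
      · ring)
  show ∑' e : ℕ, F ((p : ℕ) ^ e) = _
  rw [h2]
  rfl

end Pool.Agent.K4H13.HW
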