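import Pool.Agent.K4H13.HW.Eul
import Pool.Agent.R425.T.EqM

/-!
# Project HW: the central values of the twists of newforms of even weight
-/

set_option autoImplicit false

open Complex Filter Topology Set UpperHalfPlane MatrixGroups CongruenceSubgroup ZMod

namespace Pool.Agent.K4H13.HW

open Pool.Agent.K4H15.GM Pool.Agent.Y18.LP Pool.Agent.K4H55.AB
open Pool.Agent.Y18.BSD (dd_ne_zero dd_insert dd_coprime FF hs_congr)

section
variable {N : ℕ} [NeZero N] {m : ℕ} {f : CuspForm (Gamma0 N : Subgroup (GL (Fin 2) ℝ)) ((2 * m : ℕ) : ℤ)}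
  {ε : ℝ}

theorem mk_of (hm : 1 ≤ m) {s : ℕ → ℂ} {ε : ℂ} (hmd : Md N m s ε) (hr : HR N m s) :
    MK N (m - 1) (sy s N m) s := by
  refine ⟨sy_period hm hmd, fun l hl hlN r => sy_hecke hm hmd hr hl hlN r, ?_⟩
  obtain ⟨V, hV, h1⟩ := (sy_spec hm hmd).2
  have h2 : Submodule.span ℤ (SS N (m - 1) (sy s N m)) ≤ V := by
    rw [Submodule.span_le]
    rintro _ ⟨r, hr, rfl⟩
    exact h1 r hr
  have h3 : IsNoetherian ℤ V := isNoetherian_of_fg_of_noetherian V hV
  exact (isNoetherian_submodule.1 h3) _ h2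

lemma cvl_mul {c : Fam} (a b : ℕ) : cvl c (a * b) = cvl c a * cvl c b := by
  rw [← chi_nat, ← chi_nat, ← chi_nat, Nat.cast_mul, map_mul]

lemma cvl_one {c : Fam} : cvl c 1 = 1 := by
  rw [← chi_nat, Nat.cast_one, map_one]

/-- **The twisted `L`-functions.** -/
theorem twC (hm : 1 ≤ m) (hf : W388.IsNewf N ((2 * m : ℕ) : ℤ) f ε) (hr : HR N m (co f)) {c : Fam}
    (hfin : {q | c q ≠ 1}.Finite) (hp : ∀ q ∈ sp c, q.Prime ∧ ¬ q ∣ N) :
    ∃ G : ℂ → ℂ, Differentiable ℂ G ∧ (∀ s : ℂ, (m : ℝ) + 1 < s.re →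
      HasProd (fun p : Nat.Primes => ezk N m (co f) (cvl c p) s p) (G s)) ∧
      (∀ s : ℂ, (m : ℝ) + 1 < s.re →
        HasSum (fun n : ℕ => cvl c n * co f n * (n : ℂ) ^ (-s)) (G s)) ∧
      (bt (sy (co f) N m) c⁻¹ ≠ 0 ↔ G m ≠ 0) := by
  classical
  have hmd := md_of hm hf
  have hne : NeZero (Y18.BSD.dd (sp c)) := ⟨dd_ne_zero fun q hq => (hp q hq).1⟩
  have hco : Nat.Coprime (Y18.BSD.dd (sp c)) N := by
    unfold Pool.Agent.Y18.BSD.dd
    rw [Nat.coprime_prod_left_iff]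
    intro q hq
    exact (Nat.Prime.coprime_iff_not_dvd (hp q hq).1).2 (hp q hq).2
  have hpr : (chi c).IsPrimitive := chi_primitive c hfin fun q hq => (hp q hq).1
  obtain ⟨L, hL1, hL2, hL3, -⟩ := exists_L hm hf hpr hco
  have hsum : ∀ s : ℂ, (m : ℝ) + 1 < s.re →
      HasSum (fun n : ℕ => cvl c n * co f n * (n : ℂ) ^ (-s)) (L s) := fun s hs =>
    hs_congr (hL1.sum s hs) fun n => by
      unfold tw
      rw [chi_nat]
  refine ⟨L, hL1.diff, fun s hs => ?_, hsum, ?_⟩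
  · have h1 := euler hmd.gr hr (cvl c) cvl_one (fun a b => cvl_mul a b) (w := s)
      (hsum s hs).summable.norm
    rwa [(hsum s hs).tsum_eq] at h1
  · have hinv : ((chi c)⁻¹).IsPrimitive := Pool.Agent.W440.TW.inv_primitive _ hpr
    have hg : gaussSum (chi c)⁻¹ (stdAddChar (N := Y18.BSD.dd (sp c))) ≠ 0 :=
      Pool.Agent.W440.TW.gauss_ne_zero _ hinv
    have hTh : (fun n : ℕ => ((chi c)⁻¹)⁻¹ (n : ZMod (Y18.BSD.dd (sp c))) * co f n) = tw f (chi c) := by
      funext n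
      rw [inv_inv]
      rfl
    have h2 := link (m := m) (s := co f) hmd.gr (j := m) hm (by omega) (chi c)⁻¹ hinv
      (by rw [hTh]; exact hL2 _)
      (c := fun u => sy (co f) N m ((((u : ZMod (Y18.BSD.dd (sp c))).val : ℕ) : ℚ) / (Y18.BSD.dd (sp c) : ℕ)))
      (fun u => by
        have h3 := (sy_spec hm hmd).1 ((((u : ZMod (Y18.BSD.dd (sp c))).val : ℕ) : ℚ) / (Y18.BSD.dd (sp c) : ℕ))
          (by rw [den_unit u]; exact hco)
        refine h3.congr fun y => ?_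
        unfold G0
        congr 2
        push_cast
        rfl)
    rw [hTh] at h2
    rw [bt_inv (sy (co f) N m) hfin, ← h2]
    have h4 : mellin (Pool.Agent.W108.TW.Th (tw f (chi c)) (2 * Real.pi)) (m : ℂ) =
        Complex.Gamma m / ((2 * Real.pi : ℝ) : ℂ) ^ m * L m := hL3 m hm
    rw [h4]
    have h5 : Complex.Gamma (m : ℂ) ≠ 0 := by
      refine Complex.Gamma_ne_zero_of_re_pos ?_
      rw [Complex.natCast_re]
      exact_mod_cast hm
    have h6 : ((2 * Real.pi : ℝ) : ℂ) ^ m ≠ 0 :=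
      pow_ne_zero _ (Complex.ofReal_ne_zero.2 (by have := Real.pi_pos; positivity))
    have h7 : Complex.I ^ m * gaussSum (chi c)⁻¹ (stdAddChar (N := Y18.BSD.dd (sp c))) *
        (Complex.Gamma m / ((2 * Real.pi : ℝ) : ℂ) ^ m) ≠ 0 :=
      mul_ne_zero (mul_ne_zero (pow_ne_zero _ Complex.I_ne_zero) hg) (div_ne_zero h5 h6)
    rw [← mul_assoc]
    exact ⟨fun h8 h9 => h8 (by rw [h9, mul_zero]), fun h8 => mul_ne_zero h7 h8⟩

end

/-- the Euler polynomial of the twist by a complex representation -/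
noncomputable def PK {ι : Type} [Fintype ι] [DecidableEq ι] {M : ℕ} [NeZero M]
    (T : (ZMod M)ˣ → Matrix ι ι ℂ) (N m : ℕ) (c : ℕ → ℂ) (p : ℕ) (X : ℂ) : ℂ :=
  (1 - (c p * X) • Pool.Agent.R425.T.fav T p + ((if p ∣ N then 0 else (p : ℂ) ^ (2 * m - 1)) * X ^ 2) •
    (Pool.Agent.R425.T.fav T p) ^ 2).det

open Pool.Agent.R425.T in
open scoped Classical in
/-- **The `L`-function of the twist by a complex representation.** -/
theorem eqvK {N : ℕ} [NeZero N] {m : ℕ} (hm : 1 ≤ m)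
    {f : CuspForm (Gamma0 N : Subgroup (GL (Fin 2) ℝ)) ((2 * m : ℕ) : ℤ)} {ε : ℝ}
    (hf : W388.IsNewf N ((2 * m : ℕ) : ℤ) f ε) (hr : HR N m (co f)) (H0 : Subgroup Fam)
    (M : ℕ) [NeZero M] (hsq : Squarefree M) (hM : ∀ q : ℕ, q.Prime → q ∣ M → ¬ q ∣ N)
    (hH : ∀ c ∈ H0, bt (sy (co f) N m) c ≠ 0)
    {ι : Type} [Fintype ι] [DecidableEq ι] (T : (ZMod M)ˣ → Matrix ι ι ℂ) (hT1 : T 1 = 1)
    (hT2 : ∀ u v, T (u * v) = T u * T v) (hρ : ∀ u ∈ UU0 H0 M, T u = 1) :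
    ∃ G : ℂ → ℂ, Differentiable ℂ G ∧ (∀ s : ℂ, (m : ℝ) + 1 < s.re →
      HasProd (fun p : Nat.Primes => (PK T N m (co f) p (((p : ℕ) : ℂ) ^ (-s)))⁻¹) (G s)) ∧
      G m ≠ 0 := by
  set S0 := M.primeFactors with hS0
  have hSp : ∀ q ∈ S0, q.Prime := fun q hq => Nat.prime_of_mem_primeFactors hq
  have hSm : ∀ q ∈ S0, q ∣ M := fun q hq => Nat.dvd_of_mem_primeFactors hq
  let TT : (ZMod M)ˣ →* Module.End ℂ (ι → ℂ) :=
    { toFun := fun u => Matrix.toLin' (T u)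
      map_one' := by rw [hT1, Matrix.toLin'_one]; rfl
      map_mul' := fun u v => by rw [hT2, Matrix.toLin'_mul]; rfl }
  obtain ⟨bb, χ, hχ⟩ := exists_basis' TT
  -- the characters are trivial on the kernel
  have hχU : ∀ i, ∀ u, T u = 1 → χ i (u : ZMod M) = 1 := by
    intro i u hu
    have h1 := hχ u i
    have h2 : TT u = 1 := by
      show Matrix.toLin' (T u) = 1
      rw [hu, Matrix.toLin'_one]
      rfl
    rw [h2] at h1
    have h3 : (χ i (u : ZMod M) - 1) • bb i = 0 := by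
      rw [sub_smul, ← h1, one_smul]
      exact sub_self _
    rcases smul_eq_zero.1 h3 with h4 | h4
    · exact sub_eq_zero.1 h4
    · exact absurd h4 (bb.ne_zero i)
  -- they belong to the group
  have hY : ∀ i, ∃ c ∈ H0, (∀ q, q ∉ S0 → c q = 1) ∧
      ∀ u : (ZMod M)ˣ, χ i (u : ZMod M) = (XX c S0 M u : ℂ) := by
    intro i
    have h4 : χ i ∈ Yc M H0 S0 := by
      apply dual_mem
      intro u hu
      apply hχU i u
      apply hρ u
      rw [mem_UU0]
      intro c hc hcS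
      have h5 : (MulChar.ofUnitHom (XX c S0 M) : DirichletCharacter ℂ M) ∈ Yc M H0 S0 :=
        ⟨c, hc, hcS, fun u => MulChar.ofUnitHom_coe _ u⟩
      have h6 := hu _ h5
      rw [MulChar.ofUnitHom_coe] at h6
      exact Units.ext h6
    exact h4
  choose c hcH hcS hcv using hY
  have hG : ∀ i, ∃ G : ℂ → ℂ, Differentiable ℂ G ∧ (∀ s : ℂ, (m : ℝ) + 1 < s.re →
      HasProd (fun p : Nat.Primes => ezk N m (co f) (cvl (c i) p) s p) (G s)) ∧ G m ≠ 0 := by
    intro i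
    obtain ⟨hfin, hsub⟩ := sp_sub S0 (hcS i)
    obtain ⟨G, hG1, hG2, -, hG3⟩ := twC hm hf hr hfin
      fun q hq => ⟨hSp q (hsub hq), hM q (hSp q (hsub hq)) (hSm q (hsub hq))⟩
    exact ⟨G, hG1, hG2, hG3.1 (hH _ (H0.inv_mem (hcH i)))⟩
  choose G hG1 hG2 hG3 using hG
  refine ⟨fun s => ∏ i, G i s, Differentiable.fun_finsetProd fun i _ => hG1 i,
    fun s hs => ?_, Finset.prod_ne_zero_iff.2 fun i _ => hG3 i⟩
  have h5 := hasProd_prod (s := Finset.univ) fun i _ => hG2 i s hs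
  refine (congrArg (fun g => HasProd g _) (funext fun p : Nat.Primes => ?_)).mp h5
  -- the eigenvalues of the Frobenius average
  have h6 : ∀ i, Matrix.toLin' (fav T p) (bb i) = cvl (c i) p • bb i := by
    intro i
    unfold fav
    rw [_root_.map_smul, map_sum, LinearMap.smul_apply, LinearMap.sum_apply]
    have h7 : ∀ u ∈ frs M (p : ℕ), Matrix.toLin' (T u) (bb i) = (XX (c i) S0 M u : ℂ) • bb i := by
      intro u _
      rw [← hcv]
      exact hχ u i
    rw [Finset.sum_congr rfl h7, ← Finset.sum_smul, smul_smul]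
    congr 1
    exact fav_char hsq (hcS i) p.2
  have h7 : ∀ X : ℂ, PK T N m (co f) p X = ∏ i, (1 - (co f p * X) * cvl (c i) p +
      ((if (p : ℕ) ∣ N then 0 else ((p : ℕ) : ℂ) ^ (2 * m - 1)) * X ^ 2) * (cvl (c i) p) ^ 2) := by
    intro X
    unfold PK
    rw [← LinearMap.det_toLin', map_add, map_sub, _root_.map_smul, _root_.map_smul, Matrix.toLin'_one,
      Matrix.toLin'_pow]
    refine det_of_eig' bb _ _ fun i => ?_
    have h8 : (Matrix.toLin' (fav T p) ^ 2) (bb i) = (cvl (c i) p ^ 2) • bb i := by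
      rw [pow_two, Module.End.mul_apply, h6, _root_.map_smul, h6, smul_smul, ← pow_two]
    rw [LinearMap.add_apply, LinearMap.sub_apply, LinearMap.smul_apply, LinearMap.smul_apply,
      h8, h6, LinearMap.id_apply, smul_smul, smul_smul, add_smul, sub_smul, one_smul]
  show ∏ i, ezk N m (co f) (cvl (c i) p) s p = (PK T N m (co f) p (((p : ℕ) : ℂ) ^ (-s)))⁻¹
  rw [h7, ← Finset.prod_inv_distrib]
  refine Finset.prod_congr rfl fun i _ => ?_
  unfold ezk
  congr 1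
  ring

end Pool.Agent.K4H13.HW
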