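import Pool.Agent.K4H13.HW.Ell
import Pool.Agent.K4H13.HW.Tw
import Pool.Agent.Y18.NF.El

/-!
# Project HW: the prime two is good for `X_0(11)`
-/

set_option autoImplicit false

open Complex UpperHalfPlane MatrixGroups CongruenceSubgroup Filter Topology

namespace Pool.Agent.K4H13.HW

open Pool.Agent.W569.FM Pool.Agent.K4H55.AB
open Pool.Agent.W263.BSD (GoodPrime pointCount)
open Pool.Agent

lemma perm3 : ∀ π : Equiv.Perm (Fin 3), (π 0 = 0 ∧ π 1 = 1 ∧ π 2 = 2) ∨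
    (π 0 = 1 ∧ π 1 = 2 ∧ π 2 = 0) ∨ (π 0 = 2 ∧ π 1 = 0 ∧ π 2 = 1) ∨
    ∃ k, ∀ s : Equiv.Perm (Fin 3), s k ≠ k → ∀ t, (s * π * s⁻¹ * π⁻¹) t ≠ t := by
  decide

lemma comm_root (σ τ : GF ℚ) {ζ : AlgebraicClosure ℚ} {n : ℕ} (hn : 0 < n) (hζ : ζ ^ n = 1) :
    (σ * τ * σ⁻¹ * τ⁻¹) ζ = ζ := by
  have key : ∀ η : AlgebraicClosure ℚ, η ^ n = 1 → σ (τ η) = τ (σ η) := by
    intro η hη
    have h1 : IsPrimitiveRoot η (orderOf η) := IsPrimitiveRoot.orderOf η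
    have h0 : 0 < orderOf η := orderOf_pos_iff.2 (isOfFinOrder_iff_pow_eq_one.2 ⟨n, hn, hη⟩)
    have : NeZero (orderOf η) := ⟨h0.ne'⟩
    have h2 : ∀ ρ : GF ℚ, ∃ i : ℕ, ρ η = η ^ i := by
      intro ρ
      obtain ⟨i, -, hi⟩ := h1.eq_pow_of_pow_eq_one (ξ := ρ η) (by
        rw [← map_pow, h1.pow_eq_one, map_one])
      exact ⟨i, hi.symm⟩
    obtain ⟨i, hi⟩ := h2 σ
    obtain ⟨j, hj⟩ := h2 τ
    rw [hi, hj, map_pow, map_pow, hi, hj, ← pow_mul, ← pow_mul, mul_comm]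
  have h3 : (σ⁻¹ (τ⁻¹ ζ)) ^ n = 1 := by
    rw [← map_pow, ← map_pow, hζ, map_one, map_one]
  have h4 := key _ h3
  show σ (τ (σ⁻¹ (τ⁻¹ ζ))) = ζ
  rw [h4]
  have h5 : σ (σ⁻¹ (τ⁻¹ ζ)) = τ⁻¹ ζ := by
    show (σ * σ⁻¹) (τ⁻¹ ζ) = _
    rw [mul_inv_cancel]
    rfl
  rw [h5]
  show (τ * τ⁻¹) ζ = _
  rw [mul_inv_cancel]
  rfl

/-- an element which fixes the roots of unity and moves all the roots of the cubic -/
theorem exists_g {a b : ℤ} (hr : ∀ X : ℤ, X ^ 3 + a * X + b ≠ 0) (hd : 0 < 4 * a ^ 3 + 27 * b ^ 2) :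
    ∃ g : GF ℚ, (∀ (ζ : AlgebraicClosure ℚ) (n : ℕ), 0 < n → ζ ^ n = 1 → g ζ = ζ) ∧
      ∀ t : AlgebraicClosure ℚ, Rt a b t → g t ≠ t := by
  obtain ⟨t1, t2, t3, h1, h2, h3, hsp⟩ := exists_split a b (AlgebraicClosure ℚ)
  set e : Fin 3 → AlgebraicClosure ℚ := ![t1, t2, t3] with he
  have heR : ∀ i, Rt a b (e i) := by
    intro i
    fin_cases i
    · exact h1
    · exact h2
    · exact h3
  have hex : ∀ t : AlgebraicClosure ℚ, Rt a b t → ∃ i, t = e i := by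
    intro t ht
    unfold Rt at ht
    rw [hsp] at ht
    rcases mul_eq_zero.1 ht with h4 | h4
    · rcases mul_eq_zero.1 h4 with h4 | h4
      · exact ⟨0, sub_eq_zero.1 h4⟩
      · exact ⟨1, sub_eq_zero.1 h4⟩
    · exact ⟨2, sub_eq_zero.1 h4⟩
  set δ : AlgebraicClosure ℚ := (e 0 - e 1) * (e 1 - e 2) * (e 2 - e 0) with hδ
  have hδ2 : δ ^ 2 = -(((4 * a ^ 3 + 27 * b ^ 2 : ℤ)) : AlgebraicClosure ℚ) := by
    have g0 := hsp 0
    have g1 := hsp 1
    have g2 := hsp (-1)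
    have hb : (b : AlgebraicClosure ℚ) = -(t1 * t2 * t3) := by linear_combination g0
    have hs : t1 + t2 + t3 = 0 := by linear_combination (1 / 2 : AlgebraicClosure ℚ) * (g1 + g2) - g0
    have ha : (a : AlgebraicClosure ℚ) = t1 * t2 + t2 * t3 + t3 * t1 := by
      linear_combination (1 / 2 : AlgebraicClosure ℚ) * (g1 - g2)
    have h3' : t3 = -t1 - t2 := by linear_combination hs
    rw [hδ, he]
    simp only [Matrix.cons_val_zero, Matrix.cons_val_one, Matrix.cons_val]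
    push_cast
    rw [ha, hb, h3']
    ring
  have hδ0 : δ ≠ 0 := by
    intro h
    rw [h] at hδ2
    have h4 : (((4 * a ^ 3 + 27 * b ^ 2 : ℤ)) : AlgebraicClosure ℚ) = 0 := by
      linear_combination hδ2
    have h5 : (4 * a ^ 3 + 27 * b ^ 2 : ℤ) = 0 := by exact_mod_cast h4
    omega
  have hinj : Function.Injective e := by
    intro i j hij
    by_contra hne
    apply hδ0
    have : e 0 = e 1 ∨ e 1 = e 2 ∨ e 2 = e 0 := by
      fin_cases i <;> fin_cases j <;> simp_all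
    rw [hδ]
    rcases this with h | h | h <;> rw [h] <;> ring
  have hperm : ∀ σ : GF ℚ, ∃ π : Equiv.Perm (Fin 3), ∀ i, σ (e i) = e (π i) := by
    intro σ
    have h4 : ∀ i, ∃ j, σ (e i) = e j := by
      intro i
      apply hex
      have := congrArg σ (heR i)
      simp only [map_add, map_mul, map_pow, map_intCast, map_zero] at this
      exact this
    choose j hj using h4
    have h5 : Function.Injective j := by
      intro x y hxy
      have h6 : σ (e x) = σ (e y) := by rw [hj, hj, hxy]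
      exact hinj (σ.injective h6)
    exact ⟨Equiv.ofBijective j (Finite.injective_iff_bijective.1 h5), hj⟩
  -- an odd permutation
  obtain ⟨τ, hτ⟩ : ∃ τ : GF ℚ, τ δ ≠ δ := by
    by_contra hcon
    push_neg at hcon
    have h4 := (InfiniteGalois.mem_bot_iff_fixed δ).2 hcon
    obtain ⟨r, hr⟩ := IntermediateField.mem_bot.1 h4
    rw [← hr] at hδ2
    have h5 : algebraMap ℚ (AlgebraicClosure ℚ) (r ^ 2) =
        algebraMap ℚ (AlgebraicClosure ℚ) (-((4 * a ^ 3 + 27 * b ^ 2 : ℤ) : ℚ)) := by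
      rw [map_pow, map_neg, map_intCast]
      exact hδ2
    have h6 := (algebraMap ℚ (AlgebraicClosure ℚ)).injective h5
    have h7 : (0 : ℚ) < ((4 * a ^ 3 + 27 * b ^ 2 : ℤ) : ℚ) := by exact_mod_cast hd
    have h8 : 0 ≤ r ^ 2 := sq_nonneg r
    linarith
  obtain ⟨π, hπ⟩ := hperm τ
  have hτδ : τ δ = (e (π 0) - e (π 1)) * (e (π 1) - e (π 2)) * (e (π 2) - e (π 0)) := by
    rw [hδ, map_mul, map_mul, map_sub, map_sub, map_sub, hπ, hπ, hπ]
  obtain ⟨k, hk⟩ : ∃ k, ∀ s : Equiv.Perm (Fin 3), s k ≠ k → ∀ t, (s * π * s⁻¹ * π⁻¹) t ≠ t := by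
    rcases perm3 π with ⟨h4, h5, h6⟩ | ⟨h4, h5, h6⟩ | ⟨h4, h5, h6⟩ | h4
    · exact absurd (by rw [hτδ, h4, h5, h6]) hτ
    · exact absurd (by rw [hτδ, h4, h5, h6, hδ]; ring) hτ
    · exact absurd (by rw [hτδ, h4, h5, h6, hδ]; ring) hτ
    · exact h4
  obtain ⟨σ, hσ⟩ : ∃ σ : GF ℚ, σ (e k) ≠ e k := by
    by_contra hcon
    push_neg at hcon
    have h4 := (InfiniteGalois.mem_bot_iff_fixed (e k)).2 hcon
    obtain ⟨r, hr'⟩ := IntermediateField.mem_bot.1 h4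
    have h5 := heR k
    unfold Rt at h5
    rw [← hr'] at h5
    have h6 : r ^ 3 + (a : ℚ) * r + (b : ℚ) = 0 := by
      apply (algebraMap ℚ (AlgebraicClosure ℚ)).injective
      rw [map_add, map_add, map_mul, map_pow, map_intCast, map_intCast, map_zero]
      exact h5
    have h7 : IsIntegral ℤ r := by
      refine ⟨Polynomial.X ^ 3 + (Polynomial.C a * Polynomial.X + Polynomial.C b), ?_, ?_⟩
      · refine Polynomial.monic_X_pow_add ?_
        have h8 : (Polynomial.C a * Polynomial.X + Polynomial.C b : Polynomial ℤ).degree ≤ 1 :=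
          Polynomial.degree_linear_le
        exact lt_of_le_of_lt h8 (by norm_num)
      · have h8 : Polynomial.eval₂ (algebraMap ℤ ℚ) r (Polynomial.X ^ 3 +
            (Polynomial.C a * Polynomial.X + Polynomial.C b)) = r ^ 3 + ((a : ℚ) * r + (b : ℚ)) := by
          rw [Polynomial.eval₂_add, Polynomial.eval₂_add, Polynomial.eval₂_mul, Polynomial.eval₂_pow,
            Polynomial.eval₂_X, Polynomial.eval₂_C, Polynomial.eval₂_C]
          rfl
        rw [h8]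
        linear_combination h6
    obtain ⟨X, hX⟩ := IsIntegrallyClosed.isIntegral_iff.1 h7
    apply hr X
    have h8 : (X : ℚ) = r := by
      rw [← hX]
      simp
    rw [← h8] at h6
    exact_mod_cast h6
  obtain ⟨s, hs⟩ := hperm σ
  have hsk : s k ≠ k := by
    intro h
    exact hσ (by rw [hs, h])
  have hsi : ∀ i, σ⁻¹ (e i) = e (s⁻¹ i) := by
    intro i
    apply σ.injective
    rw [hs, show s (s⁻¹ i) = i from s.apply_symm_apply i]
    show (σ * σ⁻¹) (e i) = _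
    rw [mul_inv_cancel]
    rfl
  have hπi : ∀ i, τ⁻¹ (e i) = e (π⁻¹ i) := by
    intro i
    apply τ.injective
    rw [hπ, show π (π⁻¹ i) = i from π.apply_symm_apply i]
    show (τ * τ⁻¹) (e i) = _
    rw [mul_inv_cancel]
    rfl
  refine ⟨σ * τ * σ⁻¹ * τ⁻¹, fun ζ n hn hζ => comm_root σ τ hn hζ, fun t ht h => ?_⟩
  obtain ⟨i, rfl⟩ := hex t ht
  have h4 : (σ * τ * σ⁻¹ * τ⁻¹) (e i) = e ((s * π * s⁻¹ * π⁻¹) i) := by
    show σ (τ (σ⁻¹ (τ⁻¹ (e i)))) = e (s (π (s⁻¹ (π⁻¹ i))))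
    rw [hπi, hsi, hπ, hs]
  rw [h4] at h
  exact hk s hsk i (hinj h)

/-- the prime two is good for the elliptic curves -/
theorem goodL_two {ι : Type} [Finite ι] {a b : ι → ℤ} (hΔ : ∀ i, 4 * a i ^ 3 + 27 * b i ^ 2 ≠ 0)
    (g : GF ℚ) (hroots : ∀ (ζ : AlgebraicClosure ℚ) (n : ℕ), 0 < n → ζ ^ n = 1 → g ζ = ζ)
    (hg : ∀ i, ∀ t : AlgebraicClosure ℚ, Rt (a i) (b i) t → g t ≠ t) {c : ι → ℕ → ℂ}
    (hc : ∀ i q, GoodPrime (a i) (b i) q → c i q = (q : ℂ) - (pointCount (a i) (b i) q : ℂ)) :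
    ∃ lam, GoodL c 2 lam := by
  obtain ⟨lam, h1, h2, h3⟩ := Y18.LP.exists_lam Nat.prime_two
  refine ⟨lam, h1, h2, fun D hD => (odd_primes a b hΔ g hroots hg hD).mono ?_⟩
  rintro q ⟨hq, hqD, hq2, hi⟩
  refine ⟨hq, hqD, fun i x hx hxc => ?_⟩
  obtain ⟨h4, h5⟩ := hi i
  rw [hc i q h4] at hxc
  have h6 : x = (((q : ℤ) - (pointCount (a i) (b i) q : ℤ) - 2 : ℤ) : integralClosure ℤ ℂ) := by
    apply Subtype.ext
    rw [hxc]
    push_cast
    rfl
  rw [h6] at hx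
  have h7 := h3 _ hx
  have h8 : q % 2 = 1 := by
    rcases hq.eq_two_or_odd with h | h
    · exact absurd h hq2
    · exact h
  omega

/-! ### the curve `X_0(11)` -/

open Pool.Agent.K4H15.GM in
theorem sy_one {N : ℕ} [NeZero N] {f : CuspForm (Gamma0 N : Subgroup (GL (Fin 2) ℝ)) 2}
    {ε : ℂ} (hf : TH940.Fr f ε) : sy (Y18.BSD.co f) N 1 0 =
      -((2 * Real.pi * Complex.I : ℂ)⁻¹ * Y18.BSD.bv f 0) := by
  have h1 : (0 : ℚ).den.Coprime N := by simp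
  have h2 := Y18.BSD.bv_tendsto f hf 0 h1
  unfold sy
  rw [if_pos h1]
  refine Tendsto.limUnder_eq ?_
  refine ((h2.const_mul (2 * Real.pi * Complex.I : ℂ)⁻¹).neg).congr' ?_
  filter_upwards [self_mem_nhdsWithin] with y (hy : 0 < y)
  have him : 0 < (((0 : ℚ) : ℂ) + (y : ℂ) * Complex.I).im := by simpa using hy
  have h3 := (Y18.BSD.prim_hasSum f _ him).mul_left (2 * Real.pi * Complex.I : ℂ)⁻¹
  have h4 : G0 (Y18.BSD.co f) 1 0 (((0 : ℚ) : ℂ) + (y : ℂ) * Complex.I) =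
      -ser (dd (Y18.BSD.co f) 1) (((0 : ℚ) : ℂ) + (y : ℂ) * Complex.I) := by
    unfold G0 Gp
    simp [PC]
  rw [h4]
  congr 1
  unfold ser
  rw [← h3.tsum_eq]
  refine tsum_congr fun n => ?_
  unfold dd
  rw [pow_one]
  ring

end Pool.Agent.K4H13.HW
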