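import Pool.Agent.K4H55.AB.Sum

/-!
# Project HW: systems of modular symbols of arbitrary even weight

The sums of the symbols twisted by a fixed character and by a family of local characters agree on
finite sets, up to units, with combinations of characters.
-/

set_option autoImplicit false

namespace Pool.Agent.K4H13.HW

open Finset Pool.Agent.Y18.BSD Pool.Agent.Y18.LP Pool.Agent.K4H55.AB

/-- the normalized symbols -/
def SS (N κ : ℕ) (f : ℚ → ℂ) : Set ℂ := {x | ∃ r : ℚ, r.den.Coprime N ∧ x = (r.den : ℂ) ^ κ * f r}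

/-- a system of modular symbols of weight `2 κ + 2` -/
structure MK (N κ : ℕ) (f : ℚ → ℂ) (a : ℕ → ℂ) : Prop where
  per : ∀ r, f (r + 1) = f r
  hecke : ∀ l : ℕ, l.Prime → ¬ l ∣ N → ∀ r : ℚ,
    a l * f r = (l : ℂ) ^ κ * (f (l * r) + ∑ u ∈ range l, f ((r + u) / l))
  fin : (Submodule.span ℤ (SS N κ f)).FG

lemma span_fg' {R : Subring ℂ} {S : Set ℂ} (h : (Submodule.span ℤ S).FG) :
    (Submodule.span R S).FG := span_fg h

/-- multiples of the normalized symbols -/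
lemma mem_SS {A : Type} [CommRing A] [Algebra A ℂ] {N κ : ℕ} {f : ℚ → ℂ} {r : ℚ} {d : ℕ}
    (hr : r.den.Coprime N) (hd : r.den ∣ d) : (d : ℂ) ^ κ * f r ∈ Submodule.span A (SS N κ f) := by
  obtain ⟨k, rfl⟩ := hd
  have h1 : (r.den : ℂ) ^ κ * f r ∈ Submodule.span A (SS N κ f) := Submodule.subset_span ⟨r, hr, rfl⟩
  have h2 := (Submodule.span A (SS N κ f)).smul_mem (((k ^ κ : ℕ) : A)) h1
  have h3 : ((((k ^ κ : ℕ) : A)) • ((r.den : ℂ) ^ κ * f r) : ℂ) =
      ((r.den * k : ℕ) : ℂ) ^ κ * f r := by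
    rw [Algebra.smul_def, map_natCast]
    push_cast
    ring
  rwa [h3] at h2

lemma den_unit {M : ℕ} [NeZero M] (u : (ZMod M)ˣ) :
    ((((u : ZMod M).val : ℕ) : ℚ) / M).den = M := by
  have h1 : Nat.Coprime ((u : ZMod M).val) M := ZMod.val_coe_unit_coprime u
  have h2 : (0 : ℤ) < (M : ℤ) := by exact_mod_cast Nat.pos_of_ne_zero (NeZero.ne M)
  have h3 := Rat.den_div_eq_of_coprime (a := (((u : ZMod M).val : ℕ) : ℤ)) (b := (M : ℤ)) h2
    (by rw [Int.natAbs_natCast, Int.natAbs_natCast]; exact h1)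
  have h4 : ((((u : ZMod M).val : ℕ) : ℚ) / M) =
      (((((u : ZMod M).val : ℕ) : ℤ) : ℚ) / ((M : ℤ) : ℚ)) := by push_cast; rfl
  rw [h4]
  exact_mod_cast h3

lemma FF_mem {A : Type} [CommRing A] [Algebra A ℂ] {N κ : ℕ} (f : ℚ → ℂ) {M : ℕ} [NeZero M]
    (hM : M.Coprime N) (u : (ZMod M)ˣ) :
    (M : ℂ) ^ κ * FF f M u ∈ Submodule.span A (SS N κ f) := by
  unfold FF
  have h := den_unit u
  exact mem_SS (by rw [h]; exact hM) (by rw [h])

lemma psh_mem' {R : Subring ℂ} {E : ℕ} (hR : ∀ z : ℂ, z ^ E = 1 → z ∈ R) {N κ : ℕ} (f : ℚ → ℂ)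
    {m : ℕ} {h : (ZMod m)ˣ →* ℂˣ} (hE : ∀ u, h u ^ E = 1) {c : Fam}
    (hc : c ^ E = 1) (T : Finset ℕ) (M : ℕ) [NeZero M] (hM : M.Coprime N) :
    (M : ℂ) ^ κ * psh f h c T M ∈ Submodule.span R (SS N κ f) := by
  unfold psh ps
  rw [Finset.mul_sum]
  refine Submodule.sum_mem _ fun u _ => ?_
  have h1 : ((XH h c T M u : ℂˣ) : ℂ) ^ E = 1 := by
    have h2 : (XH h c T M u) ^ E = 1 := by
      unfold XH
      rw [MonoidHom.mul_apply, mul_pow, lh_pow hE, XX_pow hc, one_mul]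
    have := congrArg Units.val h2
    simpa using this
  have h3 := (Submodule.span R (SS N κ f)).smul_mem (⟨_, hR _ h1⟩ : R) (FF_mem (A := R) f hM u)
  have h4 : (M : ℂ) ^ κ * (((XH h c T M u : ℂˣ) : ℂ) * FF f M u) =
      (⟨_, hR _ h1⟩ : R) • ((M : ℂ) ^ κ * FF f M u) := by
    rw [Subring.smul_def, smul_eq_mul]
    ring
  rw [h4]
  exact h3

/-- the sum for a fixed modulus is a combination of characters -/
lemma psh_comb' {R : Subring ℂ} {e E : ℕ} (hR : ∀ z : ℂ, z ^ E = 1 → z ∈ R) {N κ : ℕ} (f : ℚ → ℂ)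
    {m : ℕ} {h : (ZMod m)ˣ →* ℂˣ} (hE : ∀ u, h u ^ E = 1) {H : Subgroup Fam}
    (hH : ∀ c ∈ H, c ^ e = 1) (S : Finset ℕ) (M : ℕ) [NeZero M] (hM : M.Coprime N) :
    (fun c : H => (M : ℂ) ^ κ * psh f h (c : Fam) S M) ∈ Comb H e (Submodule.span R (SS N κ f)) := by
  classical
  have h1 : (fun c : H => (M : ℂ) ^ κ * psh f h (c : Fam) S M) =
      ∑ u : (ZMod M)ˣ, fun c : H => ((lh h M u : ℂˣ) : ℂ) * ((M : ℂ) ^ κ * FF f M u) *
        ((XX (c : Fam) S M u : ℂˣ) : ℂ) := by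
    funext c
    rw [Finset.sum_apply]
    unfold psh ps
    rw [Finset.mul_sum]
    refine Finset.sum_congr rfl fun u _ => ?_
    unfold XH
    rw [MonoidHom.mul_apply, Units.val_mul]
    ring
  rw [h1]
  refine AddSubgroup.sum_mem _ fun u _ => ?_
  let E' : H →* ℂ :=
    { toFun := fun c => ((XX (c : Fam) S M u : ℂˣ) : ℂ)
      map_one' := by
        rw [XX_apply]
        simp [loc_one]
      map_mul' := fun c c' => by
        rw [Subgroup.coe_mul, XX_mul]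
        simp }
  have h3 : ((lh h M u : ℂˣ) : ℂ) ^ E = 1 := by
    have := congrArg Units.val (lh_pow hE M u)
    simpa using this
  have h4 : ((lh h M u : ℂˣ) : ℂ) * ((M : ℂ) ^ κ * FF f M u) ∈ Submodule.span R (SS N κ f) :=
    (Submodule.span R (SS N κ f)).smul_mem (⟨_, hR _ h3⟩ : R) (FF_mem (A := R) f hM u)
  refine Comb.gen (Γ := H) h4 E' fun c => ?_
  have h2 := congrArg Units.val (XX_pow (hH c c.2) S M u)
  rw [Units.val_pow_eq_pow_val, Units.val_one] at h2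
  exact h2

/-- the normalized sum -/
noncomputable def nb (κ : ℕ) (f : ℚ → ℂ) {m : ℕ} (h : (ZMod m)ˣ →* ℂˣ) (c : Fam) : ℂ :=
  ((m * dd (sp c) : ℕ) : ℂ) ^ κ * bth f h c

lemma nb_ne {κ : ℕ} {f : ℚ → ℂ} {m : ℕ} {h : (ZMod m)ˣ →* ℂˣ} {c : Fam} (hm : m * dd (sp c) ≠ 0) :
    nb κ f h c ≠ 0 ↔ bth f h c ≠ 0 := by
  unfold nb
  have h1 : ((m * dd (sp c) : ℕ) : ℂ) ^ κ ≠ 0 := pow_ne_zero _ (by exact_mod_cast hm)
  exact ⟨fun h2 h3 => h2 (by rw [h3, mul_zero]), fun h2 => mul_ne_zero h1 h2⟩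

theorem goodK {N κ : ℕ} {f : ℚ → ℂ} {a : ℕ → ℂ} (hms : MK N κ f a) {R : Subring ℂ} {e E : ℕ}
    (heE : e ∣ E) (hR : ∀ z : ℂ, z ^ E = 1 → z ∈ R) {m : ℕ} (hm0 : m ≠ 0) (hmN : m.Coprime N)
    {h : (ZMod m)ˣ →* ℂˣ} (hE : ∀ u, h u ^ E = 1) (al zh zi : ℕ → R) {P : Ideal R} (hP : P.IsPrime)
    (hP1 : ∀ z : R, (z : ℂ) ^ e = 1 → 1 - z ∈ P) {H : Subgroup Fam} {A : Set ℕ} (hH : Ok H e A)
    (hA : ∀ q ∈ A, q.Prime ∧ ¬ q ∣ N ∧ q.Coprime m ∧ ((q : R) - 1 ∈ P) ∧ (al q : ℂ) = a q ∧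
      (zh q : ℂ) = (hv h q : ℂˣ) ∧
      (zi q : ℂ) = ((hv h q)⁻¹ : ℂˣ) ∧ al q - zi q - zh q ∉ P) :
    Good e P (Submodule.span R (SS N κ f)) (fun c : H => nb κ f h c) := by
  classical
  have hRe : ∀ z : ℂ, z ^ e = 1 → z ∈ R := fun z hz => hR z (by
    obtain ⟨k, rfl⟩ := heE
    rw [pow_mul, hz, one_pow])
  have hpowE : ∀ c ∈ H, c ^ E = 1 := fun c hc => by
    obtain ⟨k, hk⟩ := heE
    exact fam_pow (hH.pow c hc) hk
  have hsp : ∀ c : H, ∀ q ∈ sp (c : Fam), q ∈ A := fun c q hq =>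
    hH.adm c c.2 q ((mem_sp (hH.fin c c.2) q).1 hq)
  have hnz : ∀ S : Finset ℕ, (∀ q ∈ S, q ∈ A) → m * dd S ≠ 0 := fun S hS =>
    mul_ne_zero hm0 (dd_ne_zero fun q hq => (hA q (hS q hq)).1)
  have hcoN : ∀ S : Finset ℕ, (∀ q ∈ S, q ∈ A) → (m * dd S).Coprime N := fun S hS => by
    refine Nat.Coprime.mul_left hmN ?_
    unfold dd
    exact Nat.Coprime.prod_left fun q hq =>
      (Nat.Prime.coprime_iff_not_dvd (hA q (hS q hq)).1).2 (hA q (hS q hq)).2.1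
  refine ⟨fun c => ?_, ?_⟩
  · have : NeZero (m * dd (sp (c : Fam))) := ⟨hnz _ (hsp c)⟩
    unfold nb
    rw [bth_eq f h c _ rfl]
    exact psh_mem' hR f hE (hpowE c c.2) _ _ (hcoN _ (hsp c))
  · have hprod : ∀ S : Finset ℕ, (∀ q ∈ S, q ∈ A) → ∏ q ∈ S, (al q - zi q - zh q) ∉ P := by
      intro S hS h
      obtain ⟨q, hq, h1⟩ := (hP.prod_mem_iff).1 h
      exact (hA q (hS q hq)).2.2.2.2.2.2.2 h1
    refine ⟨fun c => ∏ q ∈ sp (c : Fam), (al q - zi q - zh q), fun c => hprod _ (hsp c), fun Q => ?_⟩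
    set S : Finset ℕ := Q.biUnion (fun c => sp (c : Fam)) with hS
    have hSA : ∀ q ∈ S, q ∈ A := by
      intro q hq
      obtain ⟨c, _, h1⟩ := Finset.mem_biUnion.1 hq
      exact hsp c q h1
    have : NeZero (m * dd S) := ⟨hnz S hSA⟩
    refine ⟨_, psh_comb' (R := R) (e := e) (κ := κ) hR f hE hH.pow S (m * dd S) (hcoN S hSA),
      ∏ q ∈ S, (al q - zi q - zh q), hprod S hSA, ?_⟩
    intro c hc
    have hsub : sp (c : Fam) ⊆ S := Finset.subset_biUnion_of_mem (fun c : H => sp (c : Fam)) hc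
    have hne : NeZero (m * dd (sp (c : Fam))) := ⟨hnz _ (hsp c)⟩
    have hXX : XX (c : Fam) S (m * dd S) = XX (c : Fam) (sp (c : Fam)) (m * dd S) := by
      refine XX_subset _ hsub (fun q _ hq => ?_) _
      by_contra h1
      exact hq ((mem_sp (hH.fin c c.2) q).2 h1)
    obtain ⟨x, hx, h1⟩ := psh_prod f hms.per (fun q => a q / (q : ℂ) ^ κ) hm0 h (c : Fam)
      (hH.pow c c.2) (sp (c : Fam))
      (S \ sp (c : Fam)) Finset.sdiff_disjoint (fun q hq => by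
        rw [Finset.sdiff_union_of_subset hsub] at hq
        exact (hA q (hSA q hq)).1)
        (fun q hq => (hA q (hSA q (Finset.sdiff_subset hq))).2.2.1)
        (fun l hl r => by
          have hlA := hA l (hSA l (Finset.sdiff_subset hl))
          have hl0 : ((l : ℕ) : ℂ) ^ κ ≠ 0 := pow_ne_zero _ (by exact_mod_cast hlA.1.ne_zero)
          have h2 := hms.hecke l hlA.1 hlA.2.1 r
          rw [div_mul_eq_mul_div, h2, mul_div_cancel_left₀ _ hl0]) (m * dd S)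
        (m * dd (sp (c : Fam)))
      (by rw [Finset.sdiff_union_of_subset hsub]) rfl
    have hx1 : ∀ q, ((x q : ℂˣ) : ℂ) ^ e = 1 := fun q => by
      have := congrArg Units.val (hx q)
      simpa using this
    have hx2 : ∀ q, (((x q)⁻¹ : ℂˣ) : ℂ) ^ e = 1 := fun q => by
      have := congrArg Units.val (congrArg (fun z => z⁻¹) (hx q))
      simpa using this
    refine ⟨∏ q ∈ S \ sp (c : Fam), (al q - (q : R) ^ κ * (zi q * ⟨_, hRe _ (hx2 q)⟩ +
      zh q * ⟨_, hRe _ (hx1 q)⟩)), ?_, ?_⟩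
    · rw [← Ideal.Quotient.eq_zero_iff_mem, map_sub, map_mul, sub_eq_zero, map_prod, map_prod,
        map_prod]
      have h2 : ∏ q ∈ S \ sp (c : Fam), Ideal.Quotient.mk P (al q - (q : R) ^ κ *
            (zi q * ⟨_, hRe _ (hx2 q)⟩ + zh q * ⟨_, hRe _ (hx1 q)⟩)) =
          ∏ q ∈ S \ sp (c : Fam), Ideal.Quotient.mk P (al q - zi q - zh q) := by
        refine Finset.prod_congr rfl fun q hq => ?_
        have hq1 := (hA q (hSA q (Finset.sdiff_subset hq))).2.2.2.1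
        have e1 : Ideal.Quotient.mk P (q : R) = 1 := by
          rw [← sub_eq_zero, ← map_one (Ideal.Quotient.mk P), ← map_sub,
            Ideal.Quotient.eq_zero_iff_mem]
          exact hq1
        have e2 : Ideal.Quotient.mk P (⟨_, hRe _ (hx1 q)⟩ : R) = 1 := by
          rw [eq_comm, ← sub_eq_zero, ← map_one (Ideal.Quotient.mk P), ← map_sub,
            Ideal.Quotient.eq_zero_iff_mem]
          exact hP1 _ (hx1 q)
        have e3 : Ideal.Quotient.mk P (⟨_, hRe _ (hx2 q)⟩ : R) = 1 := by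
          rw [eq_comm, ← sub_eq_zero, ← map_one (Ideal.Quotient.mk P), ← map_sub,
            Ideal.Quotient.eq_zero_iff_mem]
          exact hP1 _ (hx2 q)
        rw [map_sub, map_mul, map_pow, e1, map_add, map_mul, map_mul, e2, e3, map_sub, map_sub]
        ring
      rw [h2, Finset.prod_sdiff hsub]
    · show ((m * dd S : ℕ) : ℂ) ^ κ * psh f h (c : Fam) S (m * dd S) = _
      have h4 : psh f h (c : Fam) S (m * dd S) = psh f h (c : Fam) (sp (c : Fam)) (m * dd S) := by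
        unfold psh XH
        rw [hXX]
      have h5 : dd S = dd (S \ sp (c : Fam)) * dd (sp (c : Fam)) := by
        unfold dd
        rw [Finset.prod_sdiff hsub]
      have h6 : ((m * dd S : ℕ) : ℂ) ^ κ = (∏ q ∈ S \ sp (c : Fam), (q : ℂ) ^ κ) *
          ((m * dd (sp (c : Fam)) : ℕ) : ℂ) ^ κ := by
        rw [Finset.prod_pow, h5]
        unfold dd
        push_cast
        ring
      unfold nb
      rw [h4, h1, h6, bth_eq f h c _ rfl, Subring.smul_def, smul_eq_mul]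
      have h7 : ((∏ q ∈ S \ sp (c : Fam), (al q - (q : R) ^ κ * (zi q * ⟨_, hRe _ (hx2 q)⟩ +
          zh q * ⟨_, hRe _ (hx1 q)⟩)) : R) : ℂ) = ∏ q ∈ S \ sp (c : Fam), ((q : ℂ) ^ κ *
          (a q / (q : ℂ) ^ κ - ((hv h q * x q)⁻¹ : ℂˣ) - ((hv h q * x q : ℂˣ) : ℂ))) := by
        rw [← Subring.subtype_apply, map_prod]
        refine Finset.prod_congr rfl fun q hq => ?_
        obtain ⟨hqp, -, -, -, ha1, ha2, ha3, -⟩ := hA q (hSA q (Finset.sdiff_subset hq))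
        have hq0 : ((q : ℕ) : ℂ) ^ κ ≠ 0 := pow_ne_zero _ (by exact_mod_cast hqp.ne_zero)
        rw [map_sub, map_mul, map_pow, map_add, map_mul, map_mul, map_natCast]
        simp only [Subring.subtype_apply]
        rw [ha1, ha2, ha3, mul_inv, Units.val_mul, Units.val_mul]
        field_simp
        ring
      rw [h7, Finset.prod_mul_distrib]
      ring

end Pool.Agent.K4H13.HW
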