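import Pool.Agent.K4H13.HW.Seq

/-!
# Project HW: infinite groups of characters
-/

set_option autoImplicit false

namespace Pool.Agent.K4H13.HW

open Finset Pool.Agent.Y18.BSD Pool.Agent.Y18.LP Pool.Agent.K4H55.AB
open Pool.Agent.R425.T (par)

section
variable {ι : Type} [Fintype ι] {N κ : ι → ℕ} {f : ι → ℚ → ℂ} {a : ι → ℕ → ℂ}

/-! ### sequences -/

/-- a finite group of characters without zeros -/
structure St (N : ι → ℕ) (f : ι → ℚ → ℂ) (F : Subgroup Fam) : Prop where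
  fin : (F : Set Fam).Finite
  sup : ∀ c ∈ F, Sup N c
  nz : ∀ c ∈ F, ∀ i, bt (f i) c ≠ 0

omit [Fintype ι] in
lemma St.adjoin {F : Subgroup Fam} (hF : St N f F) {c : Fam} {e : ℕ} (he : 0 < e) (hc : c ^ e = 1)
    (hs : Sup N c) (hn : ∀ ψ ∈ F, ∀ j : ℕ, ∀ i, bt (f i) (ψ * c ^ j) ≠ 0) :
    St N f (F ⊔ Subgroup.zpowers c) ∧
      ∀ d ∈ F ⊔ Subgroup.zpowers c, ∃ ψ ∈ F, ∃ j < e, d = ψ * c ^ j := by
  have key : ∀ d ∈ F ⊔ Subgroup.zpowers c, ∃ ψ ∈ F, ∃ j < e, d = ψ * c ^ j := by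
    intro d hd
    obtain ⟨ψ, hψ, y, hy, rfl⟩ := (Subgroup.mem_sup (C := Fam)).1 hd
    obtain ⟨j, rfl⟩ := Subgroup.mem_zpowers_iff.1 hy
    obtain ⟨k, hk⟩ : ∃ k : ℕ, c ^ j = c ^ k := zpow_mod' (G := Fam) (x := c) he hc j
    refine ⟨ψ, hψ, k % e, Nat.mod_lt _ he, ?_⟩
    have h2 : c ^ k = c ^ (k % e) := pow_mod' (G := Fam) (x := c) hc k
    exact congrArg (fun y => ψ * y) (hk.trans h2)
  refine ⟨⟨?_, fun d hd => ?_, fun d hd i => ?_⟩, key⟩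
  · refine ((hF.fin.prod (Finset.finite_toSet (range e))).image
      (fun x : Fam × ℕ => x.1 * c ^ x.2)).subset ?_
    intro d hd
    obtain ⟨ψ, hψ, j, hj, rfl⟩ := key d hd
    exact ⟨(ψ, j), ⟨hψ, by simpa using hj⟩, rfl⟩
  · obtain ⟨ψ, hψ, j, -, rfl⟩ := key d hd
    exact (hF.sup ψ hψ).mul (hs.pow j)
  · obtain ⟨ψ, hψ, j, -, rfl⟩ := key d hd
    exact hn ψ hψ j i

/-- the properties of the new generator -/
structure Nx (N : ι → ℕ) (f : ι → ℚ → ℂ) (B : Finset ℕ) (F : Subgroup Fam) (e : ℕ) (c : Fam) :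
    Prop where
  pow : c ^ e = 1
  ord : ∀ j, c ^ j = 1 → e ∣ j
  sup : Sup N c
  dis : ∀ ψ ∈ F, ∀ q, c q ≠ 1 → ψ q = 1
  spl : par c = 1 ∧ ∀ b ∈ B, cvl c b = 1
  st : St N f (F ⊔ Subgroup.zpowers c)

/-- **Sequences of characters of given orders.** -/
theorem seq (hN : ∀ i, N i ≠ 0) (hms : ∀ i, MK (N i) (κ i) (f i) (a i)) (l n : ℕ → ℕ)
    (hl : ∀ j, (l j).Prime) (hg : ∀ j, ∃ lam, GoodL a (l j) lam) (B : Finset ℕ)
    (hB : ∀ b ∈ B, b.Prime) (F : Subgroup Fam) (hF : St N f F) :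
    ∃ c : ℕ → Fam, (∀ j, (c j) ^ (l j ^ n j) = 1 ∧ ∀ k, (c j) ^ k = 1 → l j ^ n j ∣ k) ∧
      (∀ i j, i ≠ j → ∀ q, c i q ≠ 1 → c j q = 1) ∧
      (∀ ψ ∈ F, ∀ j q, c j q ≠ 1 → ψ q = 1) ∧
      (∀ j, par (c j) = 1 ∧ ∀ b ∈ B, cvl (c j) b = 1) ∧
      ∀ d ∈ F ⊔ Subgroup.closure (Set.range c), Sup N d ∧ ∀ i, bt (f i) d ≠ 0 := by
  classical
  have hstep : ∀ (S : {F : Subgroup Fam // St N f F}) (j : ℕ), ∃ c, Nx N f B S.1 (l j ^ n j) c := by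
    intro S j
    obtain ⟨lam, hlam⟩ := hg j
    obtain ⟨c, h1, h2, h3, h4, h6, h5⟩ := step hN hms (hl j) (n j) hlam B hB S.1 S.2.fin S.2.sup
      S.2.nz
    exact ⟨c, h1, h2, h3, h4, h6, (S.2.adjoin (pow_pos (hl j).pos _) h1 h3 h5).1⟩
  choose nx hnx using hstep
  let sq : ℕ → {F : Subgroup Fam // St N f F} := fun j => Nat.rec ⟨F, hF⟩
    (fun j S => ⟨S.1 ⊔ Subgroup.zpowers (nx S j), (hnx S j).st⟩) j
  have hsq0 : (sq 0).1 = F := rfl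
  have hsq1 : ∀ j, (sq (j + 1)).1 = (sq j).1 ⊔ Subgroup.zpowers (nx (sq j) j) := fun j => rfl
  have hmono : Monotone fun j => (sq j).1 := monotone_nat_of_le_succ fun j => by
    rw [hsq1]
    exact le_sup_left
  have hmem : ∀ j, nx (sq j) j ∈ (sq (j + 1)).1 := fun j => by
    rw [hsq1]
    exact Subgroup.mem_sup_right (Subgroup.mem_zpowers _)
  have hlt : ∀ i j, i < j → nx (sq i) i ∈ (sq j).1 := fun i j hij => hmono hij (hmem i)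
  refine ⟨fun j => nx (sq j) j, fun j => ⟨(hnx (sq j) j).pow, (hnx (sq j) j).ord⟩, ?_, ?_,
    fun j => (hnx (sq j) j).spl, ?_⟩
  · intro i j hij q hq
    rcases lt_or_gt_of_ne hij with h | h
    · by_contra h1
      exact hq ((hnx (sq j) j).dis _ (hlt i j h) q h1)
    · exact (hnx (sq i) i).dis _ (hlt j i h) q hq
  · intro ψ hψ j q hq
    refine (hnx (sq j) j).dis ψ ?_ q hq
    exact hmono (Nat.zero_le j) hψ
  · intro d hd
    have h1 : F ⊔ Subgroup.closure (Set.range fun j => nx (sq j) j) ≤ ⨆ j, (sq j).1 := by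
      refine sup_le (le_iSup (fun j => (sq j).1) 0) ?_
      rw [Subgroup.closure_le]
      rintro _ ⟨j, rfl⟩
      exact (le_iSup (fun j => (sq j).1) (j + 1)) (hmem j)
    have h2 := h1 hd
    rw [Subgroup.mem_iSup_of_directed hmono.directed_le] at h2
    obtain ⟨j, hj⟩ := h2
    exact ⟨(sq j).2.sup d hj, (sq j).2.nz d hj⟩

/-! ### infinite subgroups of given groups -/

lemma modEq_of_pow {q l n : ℕ} (hq : q.Prime) (hl : l.Prime) {χ : (ZMod q)ˣ →* ℂˣ} (h1 : χ ≠ 1)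
    (h2 : ∀ u, χ u ^ (l ^ n) = 1) : q ≡ 1 [MOD l] := by
  have : Fact q.Prime := ⟨hq⟩
  by_contra hcon
  apply h1
  ext u
  have h3 : (χ u) ^ (q - 1) = 1 := by
    rw [← map_pow, ← ZMod.card_units q, pow_card_eq_one, map_one]
  have h4 : Nat.Coprime (l ^ n) (q - 1) := by
    refine Nat.Coprime.pow_left _ ((Nat.Prime.coprime_iff_not_dvd hl).2 fun h => hcon ?_)
    exact ((Nat.modEq_iff_dvd' hq.one_lt.le).2 h).symm
  have h5 : orderOf (χ u) ∣ Nat.gcd (l ^ n) (q - 1) :=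
    Nat.dvd_gcd (orderOf_dvd_of_pow_eq_one (h2 u)) (orderOf_dvd_of_pow_eq_one h3)
  rw [h4, Nat.dvd_one, orderOf_eq_one_iff] at h5
  rw [h5, MonoidHom.one_apply]

lemma hv_cvl {ψ : Fam} {q : ℕ} (hq : q.Coprime (dd (sp ψ))) :
    ((hv (XX ψ (sp ψ) (dd (sp ψ))) q : ℂˣ) : ℂ) = cvl ψ q := by
  unfold hv
  rw [dif_pos hq, XX_nat ψ (fun p hp => dvd_dd hp) hq]
  rfl

/-- **Infinite subgroups without zeros, relative to a finite group.** -/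
theorem relInf (hms : ∀ i, MK (N i) (κ i) (f i) (a i)) {l : ℕ} (hl : l.Prime)
    (n : ℕ) {lam : Ideal (integralClosure ℤ ℂ)} (hlam : lam.IsPrime)
    (hmem : (l : integralClosure ℤ ℂ) ∈ lam) (F : Subgroup Fam) (hF : St N f F)
    (H : Subgroup Fam) (hH1 : ∀ c ∈ H, c ^ (l ^ n) = 1) (hH2 : ∀ c ∈ H, {q | c q ≠ 1}.Finite)
    (hH3 : ∀ c ∈ H, ∀ q, c q ≠ 1 → q.Prime ∧ (∀ ψ ∈ F, ψ q = 1) ∧ ∀ i, ¬ q ∣ N i ∧ ∀ ψ ∈ F,
      ∀ x ∈ lam, (x : ℂ) ≠ a i q - (cvl ψ q)⁻¹ - cvl ψ q)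
    (hinf : (H : Set Fam).Infinite) :
    ∃ H' : Subgroup Fam, H' ≤ H ∧ (H' : Set Fam).Infinite ∧
      ∀ d ∈ F ⊔ H', ∀ i, bt (f i) d ≠ 0 := by
  classical
  have hFf : Finite F := hF.fin.to_subtype
  have : Fintype F := Fintype.ofFinite F
  have hdd : ∀ ψ ∈ F, dd (sp ψ) ≠ 0 := fun ψ hψ => dd_ne_zero fun q hq =>
    ((hF.sup ψ hψ).pr q ((mem_sp (hF.sup ψ hψ).fin q).1 hq)).1
  have hddN : ∀ ψ ∈ F, ∀ i, (dd (sp ψ)).Coprime (N i) := fun ψ hψ i => by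
    unfold dd
    refine Nat.Coprime.prod_left fun q hq => ?_
    obtain ⟨h1, h2⟩ := (hF.sup ψ hψ).pr q ((mem_sp (hF.sup ψ hψ).fin q).1 hq)
    exact (Nat.Prime.coprime_iff_not_dvd h1).2 (h2 i)
  let h : (x : ι × F) → (ZMod (dd (sp (x.2 : Fam))))ˣ →* ℂˣ := fun x =>
    XX (x.2 : Fam) (sp (x.2 : Fam)) (dd (sp (x.2 : Fam)))
  have hE : ∀ x u, h x u ^ (Nat.card F) = 1 := by
    intro x u
    refine XX_pow ?_ _ _ _
    have h1 : (x.2 : F) ^ Nat.card F = 1 := pow_card_eq_one'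
    exact congrArg (Subtype.val) h1
  have hOk : Ok H (l ^ n) (AdK l (fun x : ι × F => N x.1) (fun x => a x.1)
      (fun x => dd (sp (x.2 : Fam))) h lam) := by
    refine ⟨hH1, hH2, fun c hc q hq => ?_⟩
    obtain ⟨h1, hdis, h2⟩ := hH3 c hc q hq
    have hcop : ∀ ψ ∈ F, q.Coprime (dd (sp ψ)) := by
      intro ψ hψ
      unfold dd
      refine Nat.Coprime.prod_right fun p hp => ?_
      have hp1 := (mem_sp (hF.sup ψ hψ).fin p).1 hp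
      have hpp := ((hF.sup ψ hψ).pr p hp1).1
      rw [Nat.coprime_primes h1 hpp]
      rintro rfl
      exact hp1 (hdis ψ hψ)
    refine ⟨h1, modEq_of_pow (n := n) (χ := c q) h1 hl hq (fun u => ?_), fun x => ⟨(h2 x.1).1,
      hcop _ x.2.2, fun y hy hyx => ?_⟩⟩
    · have h3 := DFunLike.congr_fun (congrFun (hH1 c hc) q) u
      rw [fam_pow_ap] at h3
      exact h3
    · refine (h2 x.1).2 _ x.2.2 y hy ?_
      rw [hyx, Units.val_inv_eq_inv_val, hv_cvl (hcop _ x.2.2)]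
  have hbase : ∀ x : ι × F, bth (f x.1) (h x) 1 ≠ 0 := by
    intro x
    rw [bth_bt (f x.1) (hF.sup _ x.2.2).fin (Sup.one N).fin (fun q hq => absurd rfl hq),
      mul_one (M := Fam)]
    exact hF.nz _ x.2.2 _
  obtain ⟨H', h1, h2, h3⟩ := infiniteK (ι := ι × F) (N := fun x => N x.1) (κ := fun x => κ x.1)
    (f := fun x => f x.1) (a := fun x => a x.1) (m := fun x => dd (sp (x.2 : Fam))) (h := h)
    (fun x => hms x.1) (fun x => hdd _ x.2.2) (fun x => hddN _ x.2.2 _) hl n (Nat.card F)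
    Nat.card_pos hE lam hlam hmem H hOk hinf hbase
  refine ⟨H', h1, h2, fun d hd i => ?_⟩
  obtain ⟨ψ, hψ, c, hc, rfl⟩ := (Subgroup.mem_sup (C := Fam)).1 hd
  have h4 := h3 c hc (i, ⟨ψ, hψ⟩)
  rw [bth_bt (f i) (hF.sup _ hψ).fin (hH2 c (h1 hc)) (fun q hq => (hH3 c (h1 hc) q hq).2.1 ψ hψ)] at h4
  exact h4

end

end Pool.Agent.K4H13.HW
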