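import Pool.Agent.K4H15.GM.Cusp

/-!
# Project HW: the periods of polynomials with integral coefficients span a finitely generated group
-/

set_option autoImplicit false

open Complex Filter Topology Set Polynomial MatrixGroups CongruenceSubgroup

namespace Pool.Agent.K4H13.HW

open Pool.Agent.K4H15.GM

/-- polynomials with integral coefficients -/
def IZ (P : ℚ[X]) : Prop := P ∈ Polynomial.lifts (Int.castRingHom ℚ)

lemma IZ.coeff {P : ℚ[X]} (h : IZ P) (n : ℕ) : ∃ k : ℤ, P.coeff n = k := by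
  obtain ⟨k, hk⟩ := (Polynomial.lifts_iff_coeff_lifts P).1 h n
  exact ⟨k, by rw [← hk]; rfl⟩

lemma IZ.C (k : ℤ) : IZ (Polynomial.C (k : ℚ)) := Polynomial.C_mem_lifts (Int.castRingHom ℚ) k

lemma IZ.X : IZ (Polynomial.X : ℚ[X]) := Polynomial.X_mem_lifts _

lemma IZ.add {P Q : ℚ[X]} (h1 : IZ P) (h2 : IZ Q) : IZ (P + Q) :=
  (Polynomial.lifts (Int.castRingHom ℚ)).add_mem h1 h2

lemma IZ.mul {P Q : ℚ[X]} (h1 : IZ P) (h2 : IZ Q) : IZ (P * Q) :=
  (Polynomial.lifts (Int.castRingHom ℚ)).mul_mem h1 h2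

lemma IZ.pow {P : ℚ[X]} (h1 : IZ P) (n : ℕ) : IZ (P ^ n) :=
  (Polynomial.lifts (Int.castRingHom ℚ)).pow_mem h1 n

lemma IZ.act {K : ℕ} {P : ℚ[X]} (h : IZ P) (a b c d : ℤ) : IZ (act K a b c d P) := by
  unfold Pool.Agent.K4H15.GM.act
  refine (Polynomial.lifts (Int.castRingHom ℚ)).sum_mem fun j _ => ?_
  obtain ⟨k, hk⟩ := h.coeff j
  rw [hk]
  exact ((IZ.C k).mul ((((IZ.C a).mul IZ.X).add (IZ.C b)).pow j)).mul
    ((((IZ.C c).mul IZ.X).add (IZ.C d)).pow _)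

lemma IZ.ag {K : ℕ} {P : ℚ[X]} (h : IZ P) (γ : SL(2, ℤ)) : IZ (ag K γ P) := h.act _ _ _ _

lemma IZ.Xpow (j : ℕ) : IZ ((Polynomial.X : ℚ[X]) ^ j) := IZ.X.pow j

/-- the transformation under `γ`, with constants in `V` -/
def Tz (s : ℕ → ℂ) (K : ℕ) (V : Submodule ℤ ℂ) (γ : SL(2, ℤ)) : Prop :=
  ∀ P : ℚ[X], IZ P → P.natDegree < K → ∃ c ∈ V, ∀ z : ℂ, 0 < z.im →
    Gp s K (PC P) (mo γ z) = Gp s K (PC (ag K γ P)) z + c

lemma Tz.one (s : ℕ → ℂ) (K : ℕ) (V : Submodule ℤ ℂ) : Tz s K V 1 := by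
  intro P _ hP
  refine ⟨0, V.zero_mem, fun z _ => ?_⟩
  rw [mo_one, ag_one hP, add_zero]

lemma Tz.mul {s : ℕ → ℂ} {K : ℕ} (hK : 0 < K) {V : Submodule ℤ ℂ} {γ δ : SL(2, ℤ)}
    (h1 : Tz s K V γ) (h2 : Tz s K V δ) : Tz s K V (γ * δ) := by
  intro P hi hP
  obtain ⟨c1, hc1, e1⟩ := h1 P hi hP
  obtain ⟨c2, hc2, e2⟩ := h2 (ag K γ P) (hi.ag γ) (ag_deg hK _ _)
  refine ⟨c2 + c1, V.add_mem hc2 hc1, fun z hz => ?_⟩
  rw [mo_mul γ δ hz, e1 _ (mo_im δ hz), e2 z hz, ag_mul hK γ δ hP, add_assoc]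

lemma Tz.inv {s : ℕ → ℂ} {K : ℕ} (hK : 0 < K) {V : Submodule ℤ ℂ} {γ : SL(2, ℤ)}
    (h1 : Tz s K V γ) : Tz s K V γ⁻¹ := by
  intro P hi hP
  obtain ⟨c1, hc1, e1⟩ := h1 (ag K γ⁻¹ P) (hi.ag _) (ag_deg hK _ _)
  refine ⟨-c1, V.neg_mem hc1, fun z hz => ?_⟩
  have h2 := e1 (mo γ⁻¹ z) (mo_im _ hz)
  rw [← mo_mul γ γ⁻¹ hz, mul_inv_cancel, mo_one, ← ag_mul hK _ _ hP, inv_mul_cancel, ag_one hP] at h2
  rw [h2]
  ring

lemma Tz.mono {s : ℕ → ℂ} {K : ℕ} {V W : Submodule ℤ ℂ} (h : V ≤ W) {γ : SL(2, ℤ)}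
    (h1 : Tz s K V γ) : Tz s K W γ := by
  intro P hi hP
  obtain ⟨c, hc, e⟩ := h1 P hi hP
  exact ⟨c, h hc, e⟩

/-- the transformation under a matrix with integral entries, with constants in `V` -/
def TLz (s : ℕ → ℂ) (K : ℕ) (V : Submodule ℤ ℂ) (lam : ℂ) (a b c d : ℤ) : Prop :=
  ∀ P : ℚ[X], IZ P → P.natDegree < K → ∃ C ∈ V, ∀ z : ℂ, 0 < z.im →
    Gp s K (PC P) (((a : ℂ) * z + b) / ((c : ℂ) * z + d)) =
      lam * Gp s K (PC (act K a b c d P)) z + C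

theorem TLz.exists {s : ℕ → ℂ} (h : Gr s) {K : ℕ} (hK : 0 < K) {a b c d : ℤ}
    (hdet : 0 < a * d - b * c) {lam : ℂ}
    (hf : ∀ z : ℂ, 0 < z.im → ser s (((a : ℂ) * z + b) / ((c : ℂ) * z + d)) *
      ((a * d - b * c : ℤ) : ℂ) = lam * ((c : ℂ) * z + d) ^ (K + 1) * ser s z) :
    ∃ V : Submodule ℤ ℂ, V.FG ∧ TLz s K V lam a b c d := by
  have h1 : ∀ j : ℕ, ∃ C : ℂ, j < K → ∀ z : ℂ, 0 < z.im →
      Gp s K (PC (X ^ j)) (((a : ℂ) * z + b) / ((c : ℂ) * z + d)) =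
        lam * Gp s K (PC (act K a b c d (X ^ j))) z + C := by
    intro j
    by_cases hj : j < K
    · obtain ⟨C, hC⟩ := trans h hK (a := a) (b := b) (c := c) (d := d) (by exact_mod_cast hdet)
        (lam := lam) (fun z hz => by
          have := hf z hz
          push_cast at this ⊢
          exact this) (P := X ^ j) (by rw [natDegree_X_pow]; exact hj)
      refine ⟨C, fun _ z hz => ?_⟩
      have := hC z hz
      push_cast at this
      exact this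
    · exact ⟨0, fun h => absurd h hj⟩
  choose C hC using h1
  refine ⟨Submodule.span ℤ (C '' (Finset.range K : Set ℕ)), ?_, fun P hi hP => ?_⟩
  · exact Submodule.fg_span ((Finset.finite_toSet _).image C)
  have hPs : P = ∑ j ∈ Finset.range K, Polynomial.C (P.coeff j) * X ^ j :=
    Polynomial.as_sum_range_C_mul_X_pow' P hP
  choose k hk using hi.coeff
  refine ⟨∑ j ∈ Finset.range K, (k j) • C j, ?_, fun z hz => ?_⟩
  · refine Submodule.sum_mem _ fun j hj => Submodule.smul_mem _ _ (Submodule.subset_span ?_)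
    exact ⟨j, by simpa using hj, rfl⟩
  have e1 : ∀ (Q : ℕ → ℚ[X]) (w : ℂ), Gp s K (PC (∑ j ∈ Finset.range K,
      Polynomial.C (P.coeff j) * Q j)) w = ∑ j ∈ Finset.range K, ((P.coeff j : ℚ) : ℂ) *
        Gp s K (PC (Q j)) w := by
    intro Q w
    unfold PC
    rw [Polynomial.map_sum, Gp_sum]
    refine Finset.sum_congr rfl fun j _ => ?_
    rw [Polynomial.map_mul, Polynomial.map_C, Gp_C_mul]
    rfl
  have e2 : act K a b c d P = ∑ j ∈ Finset.range K, Polynomial.C (P.coeff j) *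
      act K a b c d (X ^ j) := by
    unfold act
    refine Finset.sum_congr rfl fun j hj => ?_
    rw [Finset.sum_eq_single j]
    · rw [coeff_X_pow_self, C_1]
      ring
    · intro i _ hij
      rw [coeff_X_pow, if_neg hij, C_0]
      ring
    · intro h
      exact absurd hj h
  have e4 : ∀ w : ℂ, Gp s K (PC P) w = ∑ j ∈ Finset.range K, ((P.coeff j : ℚ) : ℂ) *
        Gp s K (PC (X ^ j)) w := by
    intro w
    rw [← e1, ← hPs]
  rw [e4, e2, e1, Finset.mul_sum, ← Finset.sum_add_distrib]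
  refine Finset.sum_congr rfl fun j hj => ?_
  rw [hC j (Finset.mem_range.1 hj) z hz, hk j, zsmul_eq_mul]
  push_cast
  ring

/-- the transformation under one element of `SL₂(ℤ)` -/
lemma Tz.exists {s : ℕ → ℂ} (h : Gr s) {K : ℕ} (hK : 0 < K) {γ : SL(2, ℤ)}
    (hf : ∀ z : ℂ, 0 < z.im → ser s (mo γ z) = jm γ z ^ (K + 1) * ser s z) :
    ∃ V : Submodule ℤ ℂ, V.FG ∧ Tz s K V γ := by
  have hdet : (γ 0 0 : ℤ) * γ 1 1 - γ 0 1 * γ 1 0 = 1 := by
    have h1 := Matrix.SpecialLinearGroup.det_coe γ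
    rwa [Matrix.det_fin_two] at h1
  obtain ⟨V, hV, hT⟩ := TLz.exists h hK (a := γ 0 0) (b := γ 0 1) (c := γ 1 0) (d := γ 1 1)
    (by rw [hdet]; norm_num) (lam := 1) (fun z hz => by
      have := hf z hz
      unfold mo jm at this
      push_cast at this
      rw [hdet, this]
      push_cast
      ring)
  refine ⟨V, hV, fun P hi hP => ?_⟩
  obtain ⟨c, hc, e⟩ := hT P hi hP
  refine ⟨c, hc, fun z hz => ?_⟩
  have h1 := e z hz
  rw [one_mul] at h1
  unfold mo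
  push_cast
  exact h1

/-- the periods of a finitely generated group -/
theorem exists_VG {G : Subgroup SL(2, ℤ)} (hG : G.FG) {s : ℕ → ℂ} (h : Gr s) {K : ℕ} (hK : 0 < K)
    (hf : ∀ γ ∈ G, ∀ z : ℂ, 0 < z.im → ser s (mo γ z) = jm γ z ^ (K + 1) * ser s z) :
    ∃ V : Submodule ℤ ℂ, V.FG ∧ ∀ γ ∈ G, Tz s K V γ := by
  classical
  obtain ⟨S, hS⟩ := hG
  have h1 : ∀ γ : SL(2, ℤ), ∃ V : Submodule ℤ ℂ, V.FG ∧ (γ ∈ S → Tz s K V γ) := by
    intro γ
    by_cases hγ : γ ∈ S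
    · have hγG : γ ∈ G := by
        rw [← hS]
        exact Subgroup.subset_closure hγ
      obtain ⟨V, hV, hT⟩ := Tz.exists h hK (hf γ hγG)
      exact ⟨V, hV, fun _ => hT⟩
    · exact ⟨⊥, Submodule.fg_bot, fun h => absurd h hγ⟩
  choose V hV hT using h1
  refine ⟨S.sup V, Submodule.fg_finset_sup S V fun γ _ => hV γ, fun γ hγ => ?_⟩
  rw [← hS] at hγ
  refine Subgroup.closure_induction (p := fun x _ => Tz s K (S.sup V) x) ?_ ?_ ?_ ?_ hγ
  · intro x hx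
    exact (hT x hx).mono (Finset.le_sup (f := V) hx)
  · exact Tz.one s K _
  · intro x y _ _ h1 h2
    exact h1.mul hK h2
  · intro x _ h1
    exact h1.inv hK

/-- **The integral periods of `Γ₀(N)`.** -/
theorem exists_V {N : ℕ} [NeZero N] {s : ℕ → ℂ} (h : Gr s) {K : ℕ} (hK : 0 < K)
    (hf : ∀ γ ∈ Gamma0 N, ∀ z : ℂ, 0 < z.im → ser s (mo γ z) = jm γ z ^ (K + 1) * ser s z) :
    ∃ V : Submodule ℤ ℂ, V.FG ∧ ∀ γ ∈ Gamma0 N, Tz s K V γ := by
  have hfg : Group.FG (Gamma0 N) := Pool.Agent.Y18.BSD.fg_Gamma0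
  exact exists_VG ((Group.fg_iff_subgroup_fg _).1 hfg) h hK hf

/-- **The values at the cusps.** -/
theorem exists_cusp {N : ℕ} [NeZero N] {m : ℕ} (hm : 1 ≤ m) {s : ℕ → ℂ} {ε : ℂ} (h : Md N m s ε) :
    ∃ V : Submodule ℤ ℂ, V.FG ∧ ∀ P : ℚ[X], IZ P → P.natDegree < 2 * m - 1 → ∀ (q : ℕ) (u : ℤ),
      0 < q → IsCoprime (q : ℤ) (N * u) →
      ∃ c ∈ V, Tendsto (fun y : ℝ => Gp s (2 * m - 1) (PC P) ((u : ℂ) / q + (y : ℂ) * Complex.I))
        (𝓝[>] 0) (𝓝 c) := by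
  have hN : (0 : ℝ) < N := Nat.cast_pos.2 (Nat.pos_of_ne_zero (NeZero.ne N))
  have hNc : (N : ℂ) ≠ 0 := Nat.cast_ne_zero.2 (NeZero.ne N)
  set K : ℕ := 2 * m - 1 with hKd
  have hK : 0 < K := by omega
  have hK1 : K + 1 = 2 * m := by omega
  obtain ⟨V1, hV1, hT⟩ := exists_V (N := N) h.gr hK (by rw [hK1]; exact h.gam)
  obtain ⟨V2, hV2, hF⟩ := TLz.exists h.gr hK (a := 0) (b := -1) (c := N) (d := 0)
    (lam := ε * (-1) ^ m * N / N ^ m) (by
      have : (0 : ℤ) < N := by exact_mod_cast Nat.pos_of_ne_zero (NeZero.ne N)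
      linarith) (fun z hz => by
      have h1 := h.fr z hz
      push_cast
      have h2 : ((0 : ℂ) * z + -1) / ((N : ℂ) * z + 0) = -1 / (N * z) := by
        rw [zero_mul, zero_add, add_zero]
      rw [h2, h1, hK1]
      have h3 : (N : ℂ) ^ m ≠ 0 := pow_ne_zero _ hNc
      rw [add_zero, mul_pow, two_mul, pow_add (N : ℂ)]
      field_simp
      ring)
  refine ⟨V1 ⊔ V2, hV1.sup hV2, fun P hi hP q u hq hco => ?_⟩
  have hq0 : (0 : ℝ) < q := Nat.cast_pos.2 hq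
  have hqc : (q : ℂ) ≠ 0 := Nat.cast_ne_zero.2 hq.ne'
  obtain ⟨d, v', hd⟩ := hco
  set v : ℤ := -v' with hv
  have hd1 : d * q - N * u * v = 1 := by
    rw [hv]
    linear_combination hd
  let γ : SL(2, ℤ) := ⟨!![d, u; (N : ℤ) * v, q], by
    rw [Matrix.det_fin_two_of]
    linear_combination hd1⟩
  have hγ : γ ∈ Gamma0 N := by
    rw [Gamma0_mem]
    simp [γ]
  obtain ⟨c1, hc1, e1⟩ := hT γ hγ P hi hP
  obtain ⟨c2, hc2, e2⟩ := hF (ag K γ P) (hi.ag γ) (ag_deg hK _ _)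
  refine ⟨c2 + c1, Submodule.add_mem_sup hc1 hc2 |> fun h => by rwa [add_comm] at h, ?_⟩
  set Q : ℂ[X] := PC (act K ((0 : ℤ) : ℚ) ((-1 : ℤ) : ℚ) ((N : ℤ) : ℚ) ((0 : ℤ) : ℚ) (ag K γ P)) with hQ
  -- the point at the level of the other cusp
  have hdc : (d : ℂ) * q - (N : ℂ) * u * v = 1 := by exact_mod_cast hd1
  have key : ∀ T : ℝ, 0 < T → Gp s K (PC P) ((u : ℂ) / q + ((1 / (N * q ^ 2 * T) : ℝ) : ℂ) * Complex.I) =
      ε * (-1) ^ m * N / N ^ m * Gp s K Q (((v : ℝ) / q : ℝ) + (T : ℂ) * Complex.I) + (c2 + c1) := by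
    intro T hT0
    set z' : ℂ := ((((v : ℝ) / q : ℝ)) : ℂ) + (T : ℂ) * Complex.I with hz'
    have hTc : (T : ℂ) ≠ 0 := Complex.ofReal_ne_zero.2 hT0.ne'
    have hz'im : z'.im = T := by
      rw [hz']
      simp
    have hz'0 : z' ≠ 0 := by
      intro h
      rw [h] at hz'im
      simp at hz'im
      linarith
    have hw : 0 < (-1 / ((N : ℂ) * z')).im := by
      have := im_moeb (a := 0) (b := -1) (c := N) (d := 0) (by
        have : (0 : ℚ) < N := Nat.cast_pos.2 (Nat.pos_of_ne_zero (NeZero.ne N))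
        linarith) (z := z') (by rw [hz'im]; exact hT0)
      push_cast at this
      rwa [zero_mul, zero_add, add_zero] at this
    have e3 : (u : ℂ) / q + ((1 / (N * q ^ 2 * T) : ℝ) : ℂ) * Complex.I = mo γ (-1 / (N * z')) := by
      have hj := jm_ne γ hw
      have hj' : jm γ (-1 / (N * z')) = (N : ℂ) * v * (-1 / (N * z')) + q := by
        unfold jm
        simp [γ]
      have hm' : mo γ (-1 / (N * z')) = ((d : ℂ) * (-1 / (N * z')) + u) / jm γ (-1 / (N * z')) := by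
        unfold mo jm
        simp [γ]
      have hI : Complex.I ^ 2 = -1 := Complex.I_sq
      rw [hm', eq_div_iff hj, hj']
      set x : ℂ := -1 / (N * z') with hx
      have h5 : (N : ℂ) * z' * x = -1 := by
        rw [hx]
        field_simp
      have h6 : z' * q = v + T * Complex.I * q := by
        rw [hz']
        push_cast
        field_simp
      have h7 : (N : ℂ) * v * x + q = -(N * q * T * Complex.I * x) := by
        linear_combination (-(N : ℂ) * x) * h6 + (q : ℂ) * h5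
      rw [h7]
      push_cast
      have h8 : ((u : ℂ) / q + 1 / (N * q ^ 2 * T) * Complex.I) * -(N * q * T * Complex.I * x) =
          -(u * N * T * Complex.I * x) - Complex.I ^ 2 * x / q := by
        field_simp
        ring
      rw [h8, hI]
      apply mul_right_cancel₀ hqc
      have h9 : (-(u * N * T * Complex.I * x) - -1 * x / q) * (q : ℂ) =
          -(u * N * T * Complex.I * x * q) + x := by
        field_simp
        ring
      rw [h9]
      linear_combination (-(x : ℂ)) * hdc - (u : ℂ) * h7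
    rw [e3, e1 _ hw]
    have e4 := e2 z' (by rw [hz'im]; exact hT0)
    have e5 : ((((0 : ℤ) : ℂ)) * z' + ((-1 : ℤ) : ℂ)) / ((((N : ℤ) : ℂ)) * z' + ((0 : ℤ) : ℂ)) =
        -1 / (N * z') := by
      push_cast
      rw [zero_mul, zero_add, add_zero]
    rw [e5] at e4
    rw [e4]
    ring
  have hlim : Tendsto (fun T : ℝ => ε * (-1) ^ m * N / N ^ m *
      Gp s K Q (((v : ℝ) / q : ℝ) + (T : ℂ) * Complex.I) + (c2 + c1)) atTop (𝓝 (c2 + c1)) := by
    have h9 := ((Gp_line h.gr K Q ((v : ℝ) / q)).const_mul (ε * (-1) ^ m * N / N ^ m)).add_const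
      (c2 + c1)
    rw [mul_zero, zero_add] at h9
    exact h9
  have hT : Tendsto (fun y : ℝ => (N * (q : ℝ) ^ 2)⁻¹ * y⁻¹) (𝓝[>] 0) atTop :=
    (tendsto_inv_nhdsGT_zero).const_mul_atTop (by positivity)
  refine (hlim.comp hT).congr' ?_
  filter_upwards [self_mem_nhdsWithin] with y (hy : 0 < y)
  have h10 := key ((N * (q : ℝ) ^ 2)⁻¹ * y⁻¹) (by positivity)
  have h11 : (1 / (N * (q : ℝ) ^ 2 * ((N * (q : ℝ) ^ 2)⁻¹ * y⁻¹)) : ℝ) = y := by
    field_simp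
  rw [h11] at h10
  exact h10.symm

end Pool.Agent.K4H13.HW
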